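import Mathlib
import Pool.Agent.helper58.DC.Defs

/-!
# Project gr (MP_baa4d7_al): Galois rigidity of the alternating sums. Definitions.

The definitions `Irr`, `IrrOn`, `Induces`, `IsOp`, `nrm`, `IsRadical`, `chainMap`, `funMap`,
`chainRel`, `Extension`, `altSum` are those of `Pool/Agent/helper58/DC/Defs.lean`.
-/

set_option autoImplicit false

namespace Pool.Agent.GR

open Pool.Agent.helper58.DC

/-- The group of all automorphisms of the field of complex numbers which fix all `n`-th roots of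
unity whose order is not divisible by `p ^ (j + 1)`. -/
def PFix (p j n : ℕ) (σ : ℂ ≃+* ℂ) : Prop :=
  ∀ ζ : ℂ, ζ ^ n = 1 → ¬ p ^ (j + 1) ∣ orderOf ζ → σ ζ = ζ

/-- The image of a complex valued function under an automorphism of the field of complex
numbers. -/
def galMap {G : Type} (σ : ℂ ≃+* ℂ) (ψ : G → ℂ) : G → ℂ := fun g => σ (ψ g)

/-- The orbit of `ψ` under the group of all `σ` with `PFix p j |G| σ`. -/
def galOrbit {G : Type} (p j : ℕ) (ψ : G → ℂ) : Set (G → ℂ) :=
  {φ | ∃ σ : ℂ ≃+* ℂ, PFix p j (Nat.card G) σ ∧ φ = galMap σ ψ}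

section

variable {G E A : Type} [Group G] [Group E] [Group A] (X : Extension G E A)

/-- The pair `(a, σ)` fixes `ψ`: some element of `E` over `a` fixes the chain `C` and maps the Galois
conjugate of `ψ` by `σ` to `ψ`. -/
def FixedBy (a : A) (σ : ℂ ≃+* ℂ) (C : Finset (Subgroup G)) (ψ : G → ℂ) : Prop :=
  ∃ e : E, X.proj e = a ∧ chainMap (X.act e) C = C ∧ funMap (X.act e) (galMap σ ψ) = ψ

/-- The number of irreducible characters `ψ` of `N_G(C)` with `b(ψ)^G = B` which are fixed by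
`(a, σ)`, where `B` is the block of `χ`. -/
noncomputable def galCount (M : Ideal (integralClosure ℤ ℂ)) (χ : G → ℂ) (a : A) (σ : ℂ ≃+* ℂ)
    (C : Finset (Subgroup G)) : ℕ :=
  Nat.card {ψ : G → ℂ // ψ ∈ IrrOn (nrm C) ∧ Induces M ψ χ ∧ FixedBy X a σ C ψ}

/-- The alternating sum of the numbers `galCount`, over one chain `C` of each conjugacy class of
radical `p`-chains of `G`. -/
noncomputable def galSum (p : ℕ) (M : Ideal (integralClosure ℤ ℂ)) (χ : G → ℂ) (a : A)
    (σ : ℂ ≃+* ℂ) : ℤ :=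
  ∑ᶠ c : Quot (chainRel (G := G) p), (-1) ^ (c.out.1.card - 1) * (galCount X M χ a σ c.out.1 : ℤ)

/-- The number of irreducible characters `ψ` of `N_G(C)` with `b(ψ)^G = B` which are fixed by `a`
and have exactly `m` conjugates under the group of all `σ` with `PFix p j |G| σ`. -/
noncomputable def orbCount (p j m : ℕ) (M : Ideal (integralClosure ℤ ℂ)) (χ : G → ℂ) (a : A)
    (C : Finset (Subgroup G)) : ℕ :=
  Nat.card {ψ : G → ℂ // ψ ∈ IrrOn (nrm C) ∧ Induces M ψ χ ∧
    FixedBy X a (RingEquiv.refl ℂ) C ψ ∧ (galOrbit p j ψ).ncard = m}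

/-- The alternating sum of the numbers `orbCount`. -/
noncomputable def orbSum (p j m : ℕ) (M : Ideal (integralClosure ℤ ℂ)) (χ : G → ℂ) (a : A) : ℤ :=
  ∑ᶠ c : Quot (chainRel (G := G) p), (-1) ^ (c.out.1.card - 1) * (orbCount X p j m M χ a c.out.1 : ℤ)

/-- The sum over all `d` and over all subgroups `U` of `A` which contain `a` of Dade's alternating
sums `∑ (-1)^{|C|} k_C(B, d, U)`. -/
noncomputable def dadeSum (p : ℕ) (M : Ideal (integralClosure ℤ ℂ)) (χ : G → ℂ) (a : A) : ℤ :=
  ∑ᶠ d : ℤ, ∑ᶠ U : {U : Subgroup A // a ∈ U}, altSum X p M χ d U.1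

end

end Pool.Agent.GR
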