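import Mathlib
import Pool.Agent.helper83.GR.Defs
import Pool.Agent.helper81.DI.Defs

/-!
# Project gr (MP_baa4d7_al): arithmetic modulo `M`

`IntAt M z`: `z` lies in the localisation of the ring of algebraic integers at `M`.
`InM M z`: `z` lies in the maximal ideal of this local ring.
`Small p M r z`: `z` is `p ^ r` times an element of this local ring.
-/

set_option autoImplicit false

namespace Pool.Agent.GR

open Pool.Agent.helper58.DC Pool.Agent.DI

/-- `p` is a prime and `M` a maximal ideal of the ring of algebraic integers with `p ∈ M`. -/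
structure Setup (p : ℕ) (M : Ideal (integralClosure ℤ ℂ)) : Prop where
  pr : p.Prime
  max : M.IsMaximal
  mem : (p : integralClosure ℤ ℂ) ∈ M

/-- `z` is a fraction `a / b` of algebraic integers with `b ∉ M`. -/
def IntAt (M : Ideal (integralClosure ℤ ℂ)) (z : ℂ) : Prop :=
  ∃ a b : integralClosure ℤ ℂ, b ∉ M ∧ z * (b : ℂ) = (a : ℂ)

/-- `z` is a fraction `a / b` of algebraic integers with `a ∈ M`, `b ∉ M`. -/
def InM (M : Ideal (integralClosure ℤ ℂ)) (z : ℂ) : Prop :=
  ∃ a b : integralClosure ℤ ℂ, a ∈ M ∧ b ∉ M ∧ z * (b : ℂ) = (a : ℂ)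

/-- `z` is `p ^ r * w` with `IntAt M w`. -/
def Small (p : ℕ) (M : Ideal (integralClosure ℤ ℂ)) (r : ℕ) (z : ℂ) : Prop :=
  ∃ w, IntAt M w ∧ z = (p : ℂ) ^ r * w

variable {p : ℕ} {M : Ideal (integralClosure ℤ ℂ)}

theorem Setup.prime (h : Setup p M) : M.IsPrime := h.max.isPrime

theorem Setup.ne_zero (_h : Setup p M) {b : integralClosure ℤ ℂ} (hb : b ∉ M) : (b : ℂ) ≠ 0 := by
  intro h0
  apply hb
  have : b = 0 := Subtype.ext h0
  rw [this]
  exact M.zero_mem

theorem Setup.one_not_mem (h : Setup p M) : (1 : integralClosure ℤ ℂ) ∉ M :=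
  fun h1 => h.prime.ne_top ((Ideal.eq_top_iff_one M).2 h1)

theorem Setup.mul_not_mem (h : Setup p M) {a b : integralClosure ℤ ℂ} (ha : a ∉ M) (hb : b ∉ M) :
    a * b ∉ M := fun hab => (h.prime.mem_or_mem hab).elim ha hb

theorem Setup.p_ne (h : Setup p M) : (p : ℂ) ≠ 0 := by exact_mod_cast h.pr.ne_zero

/-! ### `IntAt` -/

theorem IntAt.of_isIntegral (h : Setup p M) {z : ℂ} (hz : IsIntegral ℤ z) : IntAt M z :=
  ⟨⟨z, hz⟩, 1, h.one_not_mem, by simp⟩

theorem IntAt.coe (h : Setup p M) (a : integralClosure ℤ ℂ) : IntAt M (a : ℂ) :=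
  ⟨a, 1, h.one_not_mem, by simp⟩

theorem IntAt.natCast (h : Setup p M) (n : ℕ) : IntAt M (n : ℂ) :=
  IntAt.of_isIntegral h (by
    have := isIntegral_algebraMap (R := ℤ) (A := ℂ) (x := (n : ℤ))
    simpa using this)

theorem IntAt.zero (h : Setup p M) : IntAt M 0 := by simpa using IntAt.natCast h 0
theorem IntAt.one (h : Setup p M) : IntAt M 1 := by simpa using IntAt.natCast h 1

theorem IntAt.add (h : Setup p M) {z w : ℂ} (hz : IntAt M z) (hw : IntAt M w) :
    IntAt M (z + w) := by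
  obtain ⟨a, b, hb, e⟩ := hz
  obtain ⟨c, d, hd, f⟩ := hw
  refine ⟨a * d + c * b, b * d, h.mul_not_mem hb hd, ?_⟩
  push_cast
  rw [← e, ← f]
  ring

theorem IntAt.mul (h : Setup p M) {z w : ℂ} (hz : IntAt M z) (hw : IntAt M w) :
    IntAt M (z * w) := by
  obtain ⟨a, b, hb, e⟩ := hz
  obtain ⟨c, d, hd, f⟩ := hw
  refine ⟨a * c, b * d, h.mul_not_mem hb hd, ?_⟩
  push_cast
  rw [← e, ← f]
  ring

theorem IntAt.neg {z : ℂ} (hz : IntAt M z) : IntAt M (-z) := by
  obtain ⟨a, b, hb, e⟩ := hz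
  refine ⟨-a, b, hb, ?_⟩
  push_cast
  rw [← e]
  ring

theorem IntAt.sub (h : Setup p M) {z w : ℂ} (hz : IntAt M z) (hw : IntAt M w) :
    IntAt M (z - w) := by
  rw [sub_eq_add_neg]
  exact hz.add h hw.neg

theorem IntAt.pow (h : Setup p M) {z : ℂ} (hz : IntAt M z) (n : ℕ) : IntAt M (z ^ n) := by
  induction n with
  | zero => simpa using IntAt.one h
  | succ n ih => rw [pow_succ]; exact ih.mul h hz

theorem IntAt.sum (h : Setup p M) {ι : Type*} (s : Finset ι) {f : ι → ℂ}
    (hf : ∀ i ∈ s, IntAt M (f i)) : IntAt M (∑ i ∈ s, f i) := by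
  classical
  induction s using Finset.induction_on with
  | empty => simpa using IntAt.zero h
  | insert a s ha ih =>
    rw [Finset.sum_insert ha]
    exact (hf a (Finset.mem_insert_self a s)).add h
      (ih fun i hi => hf i (Finset.mem_insert_of_mem hi))

theorem IntAt.prod (h : Setup p M) {ι : Type*} (s : Finset ι) {f : ι → ℂ}
    (hf : ∀ i ∈ s, IntAt M (f i)) : IntAt M (∏ i ∈ s, f i) := by
  classical
  induction s using Finset.induction_on with
  | empty => simpa using IntAt.one h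
  | insert a s ha ih =>
    rw [Finset.prod_insert ha]
    exact (hf a (Finset.mem_insert_self a s)).mul h
      (ih fun i hi => hf i (Finset.mem_insert_of_mem hi))

theorem IntAt.finsum (h : Setup p M) {ι : Type*} {f : ι → ℂ}
    (hf : ∀ i, IntAt M (f i)) : IntAt M (∑ᶠ i, f i) := by
  classical
  rw [finsum_def]
  split_ifs with hs
  · exact IntAt.sum h _ fun i _ => hf i
  · exact IntAt.zero h

theorem IntAt.finsum_mem (h : Setup p M) {ι : Type*} {f : ι → ℂ} {S : Set ι}
    (hf : ∀ i ∈ S, IntAt M (f i)) : IntAt M (∑ᶠ i ∈ S, f i) := by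
  refine IntAt.finsum h fun i => ?_
  by_cases hi : i ∈ S
  · simpa [hi] using hf i hi
  · simpa [hi] using IntAt.zero h

/-! ### `InM` -/

theorem InM.intAt {z : ℂ} (hz : InM M z) : IntAt M z := by
  obtain ⟨a, b, _, hb, e⟩ := hz
  exact ⟨a, b, hb, e⟩

theorem InM.zero (h : Setup p M) : InM M 0 := ⟨0, 1, M.zero_mem, h.one_not_mem, by simp⟩

theorem InM.coe (h : Setup p M) {a : integralClosure ℤ ℂ} (ha : a ∈ M) : InM M (a : ℂ) :=
  ⟨a, 1, ha, h.one_not_mem, by simp⟩

theorem InM.add (h : Setup p M) {z w : ℂ} (hz : InM M z) (hw : InM M w) : InM M (z + w) := by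
  obtain ⟨a, b, ha, hb, e⟩ := hz
  obtain ⟨c, d, hc, hd, f⟩ := hw
  refine ⟨a * d + c * b, b * d, M.add_mem (M.mul_mem_right _ ha) (M.mul_mem_right _ hc),
    h.mul_not_mem hb hd, ?_⟩
  push_cast
  rw [← e, ← f]
  ring

theorem InM.neg {z : ℂ} (hz : InM M z) : InM M (-z) := by
  obtain ⟨a, b, ha, hb, e⟩ := hz
  refine ⟨-a, b, M.neg_mem ha, hb, ?_⟩
  push_cast
  rw [← e]
  ring

theorem InM.sub (h : Setup p M) {z w : ℂ} (hz : InM M z) (hw : InM M w) : InM M (z - w) := by
  rw [sub_eq_add_neg]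
  exact hz.add h hw.neg

theorem InM.mul_left (h : Setup p M) {z w : ℂ} (hz : IntAt M z) (hw : InM M w) :
    InM M (z * w) := by
  obtain ⟨a, b, hb, e⟩ := hz
  obtain ⟨c, d, hc, hd, f⟩ := hw
  refine ⟨a * c, b * d, M.mul_mem_left _ hc, h.mul_not_mem hb hd, ?_⟩
  push_cast
  rw [← e, ← f]
  ring

theorem InM.mul_right (h : Setup p M) {z w : ℂ} (hz : InM M z) (hw : IntAt M w) :
    InM M (z * w) := by
  rw [mul_comm]
  exact InM.mul_left h hw hz

theorem InM.pow (h : Setup p M) {z : ℂ} (hz : InM M z) {n : ℕ} (hn : n ≠ 0) : InM M (z ^ n) := by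
  obtain ⟨m, rfl⟩ := Nat.exists_eq_succ_of_ne_zero hn
  rw [pow_succ]
  exact InM.mul_left h (hz.intAt.pow h m) hz

theorem InM.sum (h : Setup p M) {ι : Type*} (s : Finset ι) {f : ι → ℂ}
    (hf : ∀ i ∈ s, InM M (f i)) : InM M (∑ i ∈ s, f i) := by
  classical
  induction s using Finset.induction_on with
  | empty => simpa using InM.zero h
  | insert a s ha ih =>
    rw [Finset.sum_insert ha]
    exact (hf a (Finset.mem_insert_self a s)).add h
      (ih fun i hi => hf i (Finset.mem_insert_of_mem hi))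

theorem InM.finsum (h : Setup p M) {ι : Type*} {f : ι → ℂ}
    (hf : ∀ i, InM M (f i)) : InM M (∑ᶠ i, f i) := by
  classical
  rw [finsum_def]
  split_ifs with hs
  · exact InM.sum h _ fun i _ => hf i
  · exact InM.zero h

theorem InM.finsum_mem (h : Setup p M) {ι : Type*} {f : ι → ℂ} {S : Set ι}
    (hf : ∀ i ∈ S, InM M (f i)) : InM M (∑ᶠ i ∈ S, f i) := by
  refine InM.finsum h fun i => ?_
  by_cases hi : i ∈ S
  · simpa [hi] using hf i hi
  · simpa [hi] using InM.zero h

theorem InM.not_one (h : Setup p M) : ¬ InM M 1 := by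
  rintro ⟨a, b, ha, hb, e⟩
  rw [one_mul] at e
  exact hb (by rw [Subtype.ext e]; exact ha)

theorem InM.mem (h : Setup p M) {a : integralClosure ℤ ℂ} (ha : InM M (a : ℂ)) : a ∈ M := by
  obtain ⟨c, b, hc, hb, e⟩ := ha
  have : a * b = c := Subtype.ext (by push_cast; exact e)
  exact (h.prime.mem_or_mem (by rw [this]; exact hc)).resolve_right hb

theorem InM.mcong_zero (h : Setup p M) {z : ℂ} (hz : IsIntegral ℤ z) (hm : InM M z) :
    Mcong M z 0 :=
  ⟨⟨z, hz⟩, InM.mem (a := ⟨z, hz⟩) h hm, by simp⟩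

theorem InM.mcong (h : Setup p M) {z w : ℂ} (hz : IsIntegral ℤ z) (hw : IsIntegral ℤ w)
    (hm : InM M (z - w)) : Mcong M z w :=
  ⟨⟨z - w, hz.sub hw⟩, InM.mem (a := ⟨z - w, hz.sub hw⟩) h hm, by simp⟩

theorem InM.of_mcong (h : Setup p M) {z w : ℂ} (hm : Mcong M z w) : InM M (z - w) := by
  obtain ⟨c, hc, e⟩ := hm
  rw [e]
  exact InM.coe h hc

theorem InM.or (h : Setup p M) {z w : ℂ} (hz : IntAt M z) (hw : IntAt M w) (hzw : InM M (z * w)) :
    InM M z ∨ InM M w := by
  obtain ⟨a, b, hb, e⟩ := hz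
  obtain ⟨c, d, hd, f⟩ := hw
  obtain ⟨x, y, hx, hy, g⟩ := hzw
  have : a * c * y = x * (b * d) := by
    apply Subtype.ext
    push_cast
    rw [← e, ← f, ← g]
    ring
  have h1 : a * c * y ∈ M := by rw [this]; exact M.mul_mem_right _ hx
  rcases h.prime.mem_or_mem ((h.prime.mem_or_mem h1).resolve_right hy) with h2 | h2
  · exact Or.inl ⟨a, b, h2, hb, e⟩
  · exact Or.inr ⟨c, d, h2, hd, f⟩

theorem InM.of_pow (h : Setup p M) {z : ℂ} (hz : IntAt M z) {n : ℕ} (hn : InM M (z ^ n)) :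
    InM M z := by
  induction n with
  | zero => rw [pow_zero] at hn; exact absurd hn (InM.not_one h)
  | succ n ih =>
    rw [pow_succ] at hn
    exact (InM.or h (hz.pow h n) hz hn).elim ih id

theorem InM.prime_mem (h : Setup p M) : InM M (p : ℂ) := by
  have := InM.coe h h.mem
  simpa using this

theorem IntAt.inv (h : Setup p M) {z : ℂ} (hz : IntAt M z) (hm : ¬ InM M z) : IntAt M z⁻¹ := by
  obtain ⟨a, b, hb, e⟩ := hz
  have ha : a ∉ M := fun ha => hm ⟨a, b, ha, hb, e⟩
  have h0 : z ≠ 0 := fun h0 => hm (h0 ▸ InM.zero h)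
  refine ⟨b, a, ha, ?_⟩
  rw [← e]
  field_simp

theorem InM.natCast (h : Setup p M) (n : ℕ) : InM M (n : ℂ) ↔ p ∣ n := by
  constructor
  · intro hn
    by_contra hpn
    have hc : IsCoprime (n : ℤ) (p : ℤ) :=
      Nat.isCoprime_iff_coprime.2 ((Nat.Prime.coprime_iff_not_dvd h.pr).2 hpn).symm
    obtain ⟨u, v, huv⟩ := hc
    apply InM.not_one h
    have e : (1 : ℂ) = (u : ℂ) * n + (v : ℂ) * p := by exact_mod_cast huv.symm
    have hi : ∀ k : ℤ, IntAt M (k : ℂ) := fun k => IntAt.of_isIntegral h (by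
      have := isIntegral_algebraMap (R := ℤ) (A := ℂ) (x := k)
      simpa using this)
    rw [e]
    exact (InM.mul_left h (hi u) hn).add h (InM.mul_left h (hi v) (InM.prime_mem h))
  · rintro ⟨k, rfl⟩
    push_cast
    exact InM.mul_right h (InM.prime_mem h) (IntAt.natCast h k)

/-- Every element of the local ring is integral up to a factor outside `M`; common denominators. -/
theorem IntAt.common (h : Setup p M) {ι : Type*} (s : Finset ι) {f : ι → ℂ}
    (hf : ∀ i ∈ s, IntAt M (f i)) :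
    ∃ b : integralClosure ℤ ℂ, b ∉ M ∧ ∀ i ∈ s, IsIntegral ℤ (f i * (b : ℂ)) := by
  classical
  induction s using Finset.induction_on with
  | empty => exact ⟨1, h.one_not_mem, by simp⟩
  | insert a s ha ih =>
    obtain ⟨b, hb, hb'⟩ := ih fun i hi => hf i (Finset.mem_insert_of_mem hi)
    obtain ⟨c, d, hd, e⟩ := hf a (Finset.mem_insert_self a s)
    refine ⟨b * d, h.mul_not_mem hb hd, fun i hi => ?_⟩
    push_cast
    rcases Finset.mem_insert.1 hi with rfl | hi
    · have : f i * ((b : ℂ) * d) = (c : ℂ) * b := by rw [← e]; ring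
      rw [this]
      exact c.2.mul b.2
    · rw [← mul_assoc]
      exact (hb' i hi).mul d.2

/-! ### `Small` -/

theorem Small.zero' (h : Setup p M) (r : ℕ) : Small p M r 0 := ⟨0, IntAt.zero h, by simp⟩

theorem Small.intAt (h : Setup p M) {r : ℕ} {z : ℂ} (hz : Small p M r z) : IntAt M z := by
  obtain ⟨w, hw, rfl⟩ := hz
  exact ((IntAt.natCast h p).pow h r).mul h hw

theorem Small.of_intAt {z : ℂ} (hz : IntAt M z) : Small p M 0 z := ⟨z, hz, by simp⟩

theorem Small.inM (h : Setup p M) {r : ℕ} {z : ℂ} (hz : Small p M (r + 1) z) : InM M z := by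
  obtain ⟨w, hw, rfl⟩ := hz
  exact InM.mul_right h (InM.pow h (InM.prime_mem h) (Nat.succ_ne_zero r)) hw

theorem Small.add (h : Setup p M) {r : ℕ} {z w : ℂ} (hz : Small p M r z) (hw : Small p M r w) :
    Small p M r (z + w) := by
  obtain ⟨z', hz', rfl⟩ := hz
  obtain ⟨w', hw', rfl⟩ := hw
  exact ⟨z' + w', hz'.add h hw', by ring⟩

theorem Small.neg {r : ℕ} {z : ℂ} (hz : Small p M r z) : Small p M r (-z) := by
  obtain ⟨z', hz', rfl⟩ := hz
  exact ⟨-z', hz'.neg, by ring⟩

theorem Small.sub (h : Setup p M) {r : ℕ} {z w : ℂ} (hz : Small p M r z) (hw : Small p M r w) :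
    Small p M r (z - w) := by
  rw [sub_eq_add_neg]
  exact hz.add h hw.neg

theorem Small.mul (h : Setup p M) {r s : ℕ} {z w : ℂ} (hz : Small p M r z)
    (hw : Small p M s w) : Small p M (r + s) (z * w) := by
  obtain ⟨z', hz', rfl⟩ := hz
  obtain ⟨w', hw', rfl⟩ := hw
  exact ⟨z' * w', hz'.mul h hw', by ring⟩

theorem Small.mul_left (h : Setup p M) {r : ℕ} {z w : ℂ} (hz : IntAt M z)
    (hw : Small p M r w) : Small p M r (z * w) := by
  have := Small.mul h (Small.of_intAt (p := p) hz) hw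
  rwa [zero_add] at this

theorem Small.pow (h : Setup p M) {r : ℕ} {z : ℂ} (hz : Small p M r z) (n : ℕ) :
    Small p M (n * r) (z ^ n) := by
  induction n with
  | zero => simpa using Small.of_intAt (p := p) (IntAt.one h)
  | succ n ih =>
    rw [pow_succ, Nat.succ_mul]
    exact ih.mul h hz

theorem Small.mono (h : Setup p M) {r s : ℕ} (hrs : r ≤ s) {z : ℂ} (hz : Small p M s z) :
    Small p M r z := by
  obtain ⟨w, hw, rfl⟩ := hz
  obtain ⟨k, rfl⟩ := Nat.exists_eq_add_of_le hrs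
  exact ⟨(p : ℂ) ^ k * w, ((IntAt.natCast h p).pow h k).mul h hw, by ring⟩

theorem Small.sum (h : Setup p M) {r : ℕ} {ι : Type*} (s : Finset ι) {f : ι → ℂ}
    (hf : ∀ i ∈ s, Small p M r (f i)) : Small p M r (∑ i ∈ s, f i) := by
  classical
  induction s using Finset.induction_on with
  | empty => simpa using Small.zero' h r
  | insert a s ha ih =>
    rw [Finset.sum_insert ha]
    exact (hf a (Finset.mem_insert_self a s)).add h
      (ih fun i hi => hf i (Finset.mem_insert_of_mem hi))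

end Pool.Agent.GR
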