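import Mathlib
import Pool.Agent.helper83.GR.Ari
import Pool.Agent.helper81.DI.SpecC

/-!
# Project gr (MP_baa4d7_al, Dade's invariant conjecture, x10): Galois rigidity

TARGET. Let `O_p(G) = 1`, `1 → G → E → A → 1` an extension of finite groups, `B` a block of `G`,
`a ∈ A`. For an automorphism `σ` of the field of complex numbers which fixes all roots of unity of
order prime to `p` the alternating sum over the radical chains `C` of the numbers of characters
`ψ` of `N_G(C)` with `b(ψ)^G = B` which are fixed by `(a, σ)` does not depend on `σ`; it is the sum of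
all Dade sums `∑ (-1)^{|C|} k_C(B, d, U)` over all `d` and all `U` which contain `a`. Consequence: the
characters with exactly `m ≥ 2` Galois conjugates cancel.

RULES FOR MODULES. File `Pool/Agent/<seat>/GR/XX.lean` with

  import Pool.Agent.helper83.GR.Spec
  set_option autoImplicit false
  namespace Pool.Agent.GR
  open Pool.Agent.helper58.DC Pool.Agent.DI
  theorem XX (hYY : YY_stmt) ... : XX_stmt := ...
  end Pool.Agent.GR

auxiliary lemmas prefixed `XX_`, no sorry, no double quotes in the file. Any other statement of this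
file and of the spec files `helper81/DI/Spec{A,B,C}` (namespace `Pool.Agent.DI`: `B2_stmt`, `C4_stmt`, ..)
and `helper58/DC/Spec1` (`NM_stmt`, `SN_stmt`, `IF_stmt`, `IM_stmt`, ..) may be taken as a hypothesis (no
circles), also if it is not listed under `uses`. Proved lemmas on `IntAt`, `InM`, `Small` are in
`Pool/Agent/helper83/GR/Ari.lean`.

Proved without hypotheses and ready to import: `Pool.Agent.DD.CPL` (helper50/DD/CPL, completeness),
`Pool.Agent.DD.NRM` (helper5/DD/NRM, norm one implies irreducible), `Pool.Agent.DD.INC`, `INT`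
(helper5/DD), `helper49/Blocks2` (`orth`, `linInd_Irr`), and the modules of helper58's DC project
(see `Pool/Agent/helper58/DC/All.lean`: dNM, dSN, dIRF, dIF, dTI, dOI, dOM, dIM, ...).

Notation of the DI project: `cc ψ z = (∑ᶠ x, z x * ψ x) / ψ 1` (central character),
`cv z w g = ∑ᶠ x, z x * w (x⁻¹ * g)` (product of the group algebra), `Mcong M` (congruence).
B2 of DI: facts on `IrrOn L` (finite, degrees, class functions, integral values, orthogonality).
C3, C4 of DI: `cc ψ z` is integral, `cc ψ (cv z w) = cc ψ z * cc ψ w`.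
-/

set_option autoImplicit false

namespace Pool.Agent.GR

open Pool.Agent.helper58.DC Pool.Agent.DI

section

variable {G : Type} [Group G]

/-- `y` is a `p`-element. -/
def PEl (p : ℕ) (y : G) : Prop := ∃ k : ℕ, y ^ p ^ k = 1

/-- `v` is `p`-regular. -/
def PReg (p : ℕ) (v : G) : Prop := ¬ p ∣ orderOf v

/-- `C_H(y)` -/
def Cz (H : Subgroup G) (y : G) : Subgroup G := H ⊓ Subgroup.centralizer {y}

/-- `z` is a class function of `H`, extended by zero. -/
def CF (H : Subgroup G) (z : G → ℂ) : Prop :=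
  (∀ h ∈ H, ∀ x, z (h * x * h⁻¹) = z x) ∧ ∀ x, x ∉ H → z x = 0

open Classical in
/-- the restriction of `z` to the centraliser of `y` -/
noncomputable def rs (y : G) (z : G → ℂ) : G → ℂ := fun x => if y * x = x * y then z x else 0

open Classical in
/-- the unit element of the group algebra -/
noncomputable def dl : G → ℂ := fun x => if x = 1 then 1 else 0

/-- The irreducible characters `ψ` of `H` with `b(ψ)^G = B`, `B` the block of `χ`. -/
def Blk (M : Ideal (integralClosure ℤ ℂ)) (χ : G → ℂ) (H : Subgroup G) : Set (G → ℂ) :=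
  {ψ | ψ ∈ IrrOn H ∧ Induces M ψ χ}

/-- `∑_{ψ ∈ S} ψ(a) ψ(b⁻¹)` -/
noncomputable def Sf (S : Set (G → ℂ)) (a b : G) : ℂ := ∑ᶠ ψ ∈ S, ψ a * ψ b⁻¹

/-- The idempotent `∑_{ψ ∈ S} e_ψ` of the group algebra of `H`. -/
noncomputable def eS (H : Subgroup G) (S : Set (G → ℂ)) (g : G) : ℂ :=
  (∑ᶠ ψ ∈ S, ψ 1 * ψ g⁻¹) / Nat.card H

/-- `S` is a union of blocks of `H`. -/
structure BC (M : Ideal (integralClosure ℤ ℂ)) (H : Subgroup G) (S : Set (G → ℂ)) : Prop where
  sub : S ⊆ IrrOn H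
  closed : ∀ ψ ∈ S, ∀ ψ' ∈ IrrOn H, (∀ z : G → ℂ, CF H z → (∀ x, IsIntegral ℤ (z x)) →
    Mcong M (cc ψ z) (cc ψ' z)) → ψ' ∈ S

/-- `|L|⁻¹ ∑_v ∑_ψ ψ(α⁻¹ v) ψ(v⁻¹)`, over the `p`-regular `v ∈ L` and `ψ` in `Blk M χ L` -/
noncomputable def tau (p : ℕ) (M : Ideal (integralClosure ℤ ℂ)) (χ : G → ℂ) (L : Subgroup G)
    (α : MulAut G) : ℂ :=
  (∑ᶠ v ∈ {v : G | v ∈ L ∧ PReg p v}, Sf (Blk M χ L) (α⁻¹ v) v) / Nat.card L

/-- the number of `ψ ∈ Blk M χ H` which are fixed by `(α, σ)` -/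
noncomputable def cnt (M : Ideal (integralClosure ℤ ℂ)) (χ : G → ℂ) (H : Subgroup G)
    (α : MulAut G) (σ : ℂ ≃+* ℂ) : ℕ :=
  Nat.card {ψ : G → ℂ // ψ ∈ Blk M χ H ∧ funMap α (galMap σ ψ) = ψ}

end

/-- `σ` acts on the `n`-th roots of unity as `ζ ↦ ζ ^ s`, and trivially on those of order prime to
`p`. -/
structure Ex (p n : ℕ) (σ : ℂ ≃+* ℂ) (s : ℕ) : Prop where
  cop : s.Coprime n
  act : ∀ ζ : ℂ, ζ ^ n = 1 → σ ζ = ζ ^ s
  reg : ∀ m : ℕ, m ∣ n → ¬ p ∣ m → s ≡ 1 [MOD m]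

/-- The function of a subgroup `N` of `E` which is summed over the chains. -/
noncomputable def gE {G E A : Type} [Group G] [Group E] [Group A] (X : Extension G E A)
    (M : Ideal (integralClosure ℤ ℂ)) (χ : G → ℂ) (a : A) (σ : ℂ ≃+* ℂ) (N : Subgroup E) : ℤ :=
  ∑ᶠ e ∈ {e : E | e ∈ N ∧ X.proj e = a}, (cnt M χ (N.comap X.inc) (X.act e) σ : ℤ)

/-! ## A. Arithmetic -/

/-- The local ring has dimension one. Proof: `z = a / b`, `a ∈ M`, `b ∉ M`; it suffices to find `k`,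
`c ∉ M` with `p ∣ c * a ^ k` in the ring `O` of algebraic integers. Otherwise the submonoid of all
`c * a ^ k` (`c ∉ M`) is disjoint from the ideal `(p)`, so there is a prime ideal `Q ∋ p` disjoint from
it (`Ideal.exists_le_prime_disjoint`): `Q ≤ M` and `a ∈ M \ Q`. By
`Ideal.comap_lt_comap_of_integral_mem_sdiff` (`O` is integral over `ℤ`) `Q ∩ ℤ < M ∩ ℤ`, but both are
`pℤ` (`pℤ` is maximal and `M ∩ ℤ ≠ ⊤`), a contradiction. -/
def VAL_stmt : Prop :=
  ∀ (p : ℕ) (M : Ideal (integralClosure ℤ ℂ)), Setup p M → ∀ z : ℂ, InM M z →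
    ∃ k : ℕ, Small p M 1 (z ^ k)

/-- Proof: let `z ≠ 0`. It divides in `O` a nonzero integer `c` (constant term of the minimal
polynomial): `c = z * z'`. Let `p ^ v` be the exact power of `p` in `c`. From `Small (v + 1) z` we get
`c * b = p ^ (v + 1) * a` with `b ∉ M`, `a ∈ O`; so `(c / p ^ v) * b = p * a ∈ M`, but `c / p ^ v ∉ M`
(`InM.natCast`) and `b ∉ M`, a contradiction. -/
def ZER_stmt : Prop :=
  ∀ (p : ℕ) (M : Ideal (integralClosure ℤ ℂ)), Setup p M → ∀ z : ℂ, IsIntegral ℤ z →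
    (∀ r, Small p M r z) → z = 0

/-- Long products of elements of a finite subset of the maximal ideal. Proof: by VAL there is
`k ≥ 1` with `Small 1 (t ^ k)` for all `t ∈ T` (if it holds for `k` it holds for all larger exponents).
Take `N = |T| * k * r + 1`; some `t` occurs at least `k * r` times in the product, and `t ^ (k * r)` is
`Small r`. Uses: VAL. -/
def PRD_stmt : Prop :=
  ∀ (p : ℕ) (M : Ideal (integralClosure ℤ ℂ)), Setup p M → ∀ T : Set ℂ, T.Finite →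
    (∀ t ∈ T, InM M t) → ∀ r : ℕ, ∃ N : ℕ, ∀ m ≥ N, ∀ f : Fin m → ℂ, (∀ i, f i ∈ T) →
      Small p M r (∏ i, f i)

open Classical in
/-- Orbit counting. Proof: the `x` with `R ^ (p ^ r) x ≠ x` form a union of orbits of the cyclic
`p`-group generated by `R`, of lengths `p ^ j` with `j > r`, and `w` is constant on orbits. (Or: for
`j ≥ r` the cyclic group generated by `R` acts on the set of `x` with `R ^ (p ^ (j + 1)) x = x`,
`R ^ (p ^ j) x ≠ x` with all orbits of length `p ^ (j + 1)`.) -/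
def ORB_stmt : Prop :=
  ∀ (p : ℕ) (M : Ideal (integralClosure ℤ ℂ)), Setup p M → ∀ (X : Type) [Fintype X]
    (R : Equiv.Perm X) (K r : ℕ), R ^ (p ^ K) = 1 → ∀ w : X → ℂ, (∀ x, IntAt M (w x)) →
    (∀ x, w (R x) = w x) → Small p M (r + 1)
      (∑ x, w x - ∑ x ∈ Finset.univ.filter (fun x => (R ^ (p ^ r)) x = x), w x)

/-- KEY LEMMA. Proof of `Small (r + 1)` (then `Small.mono`). Let `T` be the set of all `ε z w` with
`z`, `w` fixed by `π ^ n₀`, and `N` from PRD for `T` and `r + 1`. Take `m = p ^ l` with `l ≥ r`, `m ≥ N`.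
As `ε` is an idempotent matrix, `∑_z ε(z, π z) = ∑_z (ε^m)(z, π z) = ∑_c w(c)`, where `c` runs through
all `c : Fin m → Z`, extended to `ℤ` (or `ℕ`) by `c (i + m) = π (c i)`, and
`w(c) = ∏_{i < m} ε (c i) (c (i + 1))`. The shift `(R c) i = c (i + 1)` is a permutation of the set
of all `c`; `w (R c) = w c` since `ε` is `π`-invariant; `R ^ m` is `c ↦ π ∘ c`. Let `Q = R ^ n₀`, so
`Q ^ (p ^ (l + n)) = 1`. By ORB for `Q` the sum `∑_c w(c)` is, up to `Small (r + 1)`, the sum over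
the `c` with `Q ^ (p ^ r) c = c`, i.e. `c (i + n₀ p^r) = c i`. For such `c` we get
`π ^ n₀ (c i) = c (i + n₀ m) = c i` because `p ^ r ∣ m`; so `w(c)` is a product of `m ≥ N` elements
of `T`, which is `Small (r + 1)`. Uses: ORB, PRD. -/
def KEY_stmt : Prop :=
  ∀ (p : ℕ) (M : Ideal (integralClosure ℤ ℂ)), Setup p M → ∀ (Z : Type) [Fintype Z]
    (ε : Z → Z → ℂ) (π : Equiv.Perm Z) (n n₀ : ℕ), ¬ p ∣ n₀ → π ^ (p ^ n * n₀) = 1 →
    (∀ z w, IntAt M (ε z w)) → (∀ z w, ∑ u, ε z u * ε u w = ε z w) →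
    (∀ z w, ε (π z) (π w) = ε z w) →
    (∀ z w, (π ^ n₀) z = z → (π ^ n₀) w = w → InM M (ε z w)) →
    ∀ r : ℕ, Small p M r (∑ z, ε z (π z))

/-! ## B. Characters and the group algebra -/

/-- Facts on the product of the group algebra (`cv`). All items by direct computation (for
commutativity replace `x` by `g x⁻¹ ..`: `cv a b g = ∑_x a x * b (x⁻¹ * g)`; if `a` is an `H`-class
function supported on `H` and `b` is supported on `H`, then, with `y = x⁻¹ g ∈ H` and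
`a (g y⁻¹) = a (y⁻¹ g)`, it is `∑_y b y * a (y⁻¹ g)`; for `g ∉ H` both sides are `0`). -/
def CVF_stmt : Prop :=
  ∀ (G : Type) [Group G] [Finite G],
    (∀ a b c : G → ℂ, cv (cv a b) c = cv a (cv b c)) ∧
    (∀ a b c : G → ℂ, cv (a + b) c = cv a c + cv b c ∧ cv a (b + c) = cv a b + cv a c ∧
      cv (a - b) c = cv a c - cv b c ∧ cv a (b - c) = cv a b - cv a c) ∧
    (∀ (k : ℂ) (a b : G → ℂ), cv (k • a) b = k • cv a b ∧ cv a (k • b) = k • cv a b) ∧
    (∀ a : G → ℂ, cv dl a = a ∧ cv a dl = a) ∧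
    (∀ (l : G) (a b : G → ℂ), (∀ x, a (l * x * l⁻¹) = a x) → (∀ x, b (l * x * l⁻¹) = b x) →
      ∀ x, cv a b (l * x * l⁻¹) = cv a b x) ∧
    (∀ (H : Subgroup G) (a b : G → ℂ), (∀ x, x ∉ H → a x = 0) → (∀ x, x ∉ H → b x = 0) →
      ∀ x, x ∉ H → cv a b x = 0) ∧
    (∀ (H : Subgroup G) (a b : G → ℂ), CF H a → (∀ x, x ∉ H → b x = 0) → cv a b = cv b a) ∧
    (∀ (H : Subgroup G) (a b : G → ℂ), CF H a → CF H b → CF H (cv a b) ∧ CF H (a + b) ∧
      CF H (a - b)) ∧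
    (∀ (H : Subgroup G) (k : ℂ) (a : G → ℂ), CF H a → CF H (k • a)) ∧
    (∀ (H : Subgroup G), CF H dl) ∧
    (∀ (p : ℕ) (M : Ideal (integralClosure ℤ ℂ)), Setup p M → ∀ a b : G → ℂ,
      (∀ x, IntAt M (a x)) → (∀ x, IntAt M (b x)) → ∀ x, IntAt M (cv a b x)) ∧
    (∀ (p : ℕ) (M : Ideal (integralClosure ℤ ℂ)), Setup p M → ∀ a b : G → ℂ,
      (∀ x, IntAt M (a x)) → (∀ x, InM M (b x)) → ∀ x, InM M (cv a b x))

/-- Completeness. (CPL of helper12's DD project for the group `H` and `x ↦ z x⁻¹`.) -/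
def EXP_stmt : Prop :=
  ∀ (G : Type) [Group G] [Finite G] (H : Subgroup G) (z : G → ℂ), CF H z →
    (∀ ψ ∈ IrrOn H, cc ψ z = 0) → z = 0

/-- Multiplication formula. (B4 of DI for the group `H`; for `y ∉ H` both sides are `0`.) -/
def SCH_stmt : Prop :=
  ∀ (G : Type) [Group G] [Finite G] (H : Subgroup G), ∀ ψ ∈ IrrOn H, ∀ x ∈ H, ∀ y : G,
    ψ 1 * ∑ᶠ t ∈ (H : Set G), ψ (x * (t * y * t⁻¹)) = (Nat.card H : ℂ) * ψ x * ψ y

/-- The central character on the local ring. (1) is linearity. (2) is C4 of DI. (3): `cc ψ z` is the sum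
over the `H`-classes `K` of elements of `G` (orbits of `H` acting by conjugation) of `z(g_K)` times
`cc ψ 1_K`, and `cc ψ 1_K` is integral by C3 of DI (`1_K` the indicator function). Uses: C3, C4, B2 of
DI. -/
def CCI_stmt : Prop :=
  ∀ (G : Type) [Group G] [Finite G] (H : Subgroup G), ∀ ψ ∈ IrrOn H,
    (∀ (k : ℂ) (z w : G → ℂ), cc ψ (z + w) = cc ψ z + cc ψ w ∧ cc ψ (z - w) = cc ψ z - cc ψ w ∧
      cc ψ (k • z) = k * cc ψ z ∧ cc ψ dl = 1) ∧
    (∀ z w : G → ℂ, CF H z → CF H w → cc ψ (cv z w) = cc ψ z * cc ψ w) ∧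
    (∀ (p : ℕ) (M : Ideal (integralClosure ℤ ℂ)), Setup p M → ∀ z : G → ℂ,
      (∀ h ∈ H, ∀ x, z (h * x * h⁻¹) = z x) →
      ((∀ x, IntAt M (z x)) → IntAt M (cc ψ z)) ∧ ((∀ x, InM M (z x)) → InM M (cc ψ z)))

/-- The Galois conjugate of an irreducible character is irreducible. Proof: choose a basis of the
module, so that `ψ` (on `H`) is the character of `g ↦ D g`, `D g` an invertible matrix; the matrices
`(D g).map σ` give a representation with character `σ ∘ ψ`, and `∑_g σ(ψ g) σ(ψ g⁻¹) = |H|`; a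
representation whose character has norm one is irreducible (NRM of helper12's DD project). -/
def GLI_stmt : Prop :=
  ∀ (G : Type) [Group G] [Finite G] (H : Subgroup G) (σ : ℂ ≃+* ℂ), ∀ ψ ∈ IrrOn H,
    galMap σ ψ ∈ IrrOn H

/-- The Galois conjugate by powers. Proof: for `g ∈ H` the matrix `ρ(g)` is diagonalisable with
eigenvalues `λ`, `λ^|G| = 1`; `ψ(g^s) = ∑ λ^s = ∑ σ(λ) = σ(ψ(g))`. For `g ∉ H` both sides are `0` since `g`
is a power of `g^s`. (Without diagonalising: the roots of the characteristic polynomial of `ρ(g)^s`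
are the `s`-th powers of those of `ρ(g)`, as multisets; `Matrix.trace_eq_sum_roots_charpoly`.) -/
def GLP_stmt : Prop :=
  ∀ (G : Type) [Group G] [Finite G] (σ : ℂ ≃+* ℂ) (s : ℕ), s.Coprime (Nat.card G) →
    (∀ ζ : ℂ, ζ ^ Nat.card G = 1 → σ ζ = ζ ^ s) → ∀ (H : Subgroup G), ∀ ψ ∈ IrrOn H, ∀ g,
    σ (ψ g) = ψ (g ^ s)

/-- Exponents. Proof: `σ` maps a primitive `n`-th root of unity `ζ₀` to a primitive one, which is
`ζ₀ ^ s` with `s` prime to `n`, and all `n`-th roots are powers of `ζ₀`. If `PFix p 0 n σ`, `m ∣ n`,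
`¬ p ∣ m`, then `ζ = ζ₀ ^ (n / m)` has order `m`, so `ζ ^ s = σ ζ = ζ` and `s ≡ 1` modulo `m`. -/
def GLS_stmt : Prop :=
  ∀ (p n : ℕ) (σ : ℂ ≃+* ℂ), p.Prime → 0 < n →
    (∃ s : ℕ, s.Coprime n ∧ ∀ ζ : ℂ, ζ ^ n = 1 → σ ζ = ζ ^ s) ∧
    (PFix p 0 n σ → ∃ s : ℕ, Ex p n σ s)

open Classical in
/-- The idempotent of a set of characters. Proof: `cc φ e = [φ ∈ S]` by orthogonality (B2 of DI);
`cv e e = e` by EXP, since both sides are class functions (CVF) with the same `cc` (CCI). For `a, b ∈ H`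
`∑_{z ∈ H} e(z⁻¹a⁻¹zb) = |H|⁻¹ ∑_ψ ψ(1) ∑_z ψ(b⁻¹ z⁻¹ a z) = ∑_ψ ψ(b⁻¹) ψ(a)` by SCH.
Uses: SCH, EXP, CVF, CCI, B2 of DI. -/
def IDM_stmt : Prop :=
  ∀ (G : Type) [Group G] [Finite G] (H : Subgroup G) (S : Set (G → ℂ)), S ⊆ IrrOn H →
    CF H (eS H S) ∧ (∀ ψ ∈ IrrOn H, cc ψ (eS H S) = if ψ ∈ S then 1 else 0) ∧
    cv (eS H S) (eS H S) = eS H S ∧
    ∀ a ∈ H, ∀ b ∈ H, ∑ᶠ z ∈ (H : Set G), eS H S (z⁻¹ * a⁻¹ * z * b) = Sf S a b

/-- Facts on `Sf`: invariance under conjugation by `H` in each argument, integrality, and the case of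
a central `y` (by SCH `ψ(1) ψ(y x) = ψ(y) ψ(x)`, `ψ(y) ψ(y⁻¹) = ψ(1)^2`). Uses: SCH, B2 of DI. -/
def SFC_stmt : Prop :=
  ∀ (G : Type) [Group G] [Finite G] (H : Subgroup G) (S : Set (G → ℂ)), S ⊆ IrrOn H →
    (∀ a b, ∀ h ∈ H, Sf S (h * a * h⁻¹) b = Sf S a b ∧ Sf S a (h * b * h⁻¹) = Sf S a b) ∧
    (∀ a b, IsIntegral ℤ (Sf S a b)) ∧
    (∀ y ∈ H, (∀ h ∈ H, y * h = h * y) → ∀ v ∈ H, ∀ v' ∈ H,
      Sf S (y * v) (y * v') = Sf S v v')

/-! ## C. Blocks -/

/-- Block idempotents have values in the local ring. Proof: call `z` good if `CF H z` and all values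
satisfy `IntAt M`; good functions are closed under `+`, `-`, `cv`, multiplication by scalars `k` with
`IntAt M k` (CVF). (1) For `ψ ∈ S` and `ψ' ∈ IrrOn H \ S` there is a good integral `f` with
`¬ InM M (cc ψ f - cc ψ' f)` (`BC.closed`, `InM.mcong`), so `u = (cc ψ f - cc ψ' f)⁻¹ • (f - cc ψ' f • dl)`
is good, `cc ψ u = 1`, `cc ψ' u = 0` (CCI). (2) Fix `ψ ∈ S`; by induction over finite subsets `T` of
`IrrOn H \ S` there is a good `u` with `cc ψ u = 1` and `cc ψ' u = 0` for `ψ' ∈ T` (products `cv`). Take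
`T = IrrOn H \ S`. (3) By induction over finite subsets `T` of `S` there is a good `w` with
`cc ψ w = 1` for `ψ ∈ T` and `cc ψ' w = 0` for `ψ' ∈ IrrOn H \ S` (`w + u - cv w u`). For `T = S`
`w = eS H S` by EXP and IDM. Uses: CVF, CCI, EXP, IDM, B2 of DI. -/
def EIN_stmt : Prop :=
  ∀ (p : ℕ) (M : Ideal (integralClosure ℤ ℂ)), Setup p M → ∀ (G : Type) [Group G] [Finite G]
    (H : Subgroup G) (S : Set (G → ℂ)), BC M H S → ∀ x, IntAt M (eS H S x)

/-- The Brauer homomorphism for `y`. Proof: `cv z w c = ∑_x z x * w (x⁻¹ * c)`; conjugation by `y` is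
a permutation `R` of `G` of `p`-power order, the summand is invariant (`c` commutes with `y`, `y ∈ H`),
and for `x` commuting with `y` also `x⁻¹ * c` commutes with `y`. Use ORB with `r = 0`. The last two
items are clear. Uses: ORB. -/
def BRH_stmt : Prop :=
  ∀ (p : ℕ) (M : Ideal (integralClosure ℤ ℂ)), Setup p M → ∀ (G : Type) [Group G] [Finite G]
    (H : Subgroup G), ∀ y ∈ H, PEl p y → ∀ z w : G → ℂ, CF H z → CF H w →
    (∀ x, IntAt M (z x)) → (∀ x, IntAt M (w x)) →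
    (∀ c ∈ Cz H y, InM M (cv z w c - cv (rs y z) (rs y w) c)) ∧
    CF (Cz H y) (rs y z) ∧ (∀ x, IntAt M (rs y z x))

/-- Every central character of `C_H(y)` modulo `M` comes from `H`. Proof: let `L = Cz H y`. Note
`cc θ z = cc θ (rs y z)` as `θ` vanishes outside `L`. By BRH and CCI `z ↦ cc θ z` is multiplicative
modulo `InM` on good functions (`CF H z`, values `IntAt`): `cc θ (cv z w) = cc θ (rs y (cv z w))`, which is
congruent to `cc θ (cv (rs y z) (rs y w)) = cc θ z * cc θ w` (the difference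
`rs y (cv z w) - cv (rs y z) (rs y w)` is an `L`-class function with values `InM`; outside `L` it is
`0`). Suppose that for every `ψ ∈ IrrOn H` there is a good `f` with `¬ InM M (cc θ f - cc ψ f)`. Put
`g = f - cc ψ f • dl`: `cc ψ g = 0`, `¬ InM M (cc θ g)`. By induction over finite subsets `T` of
`IrrOn H` there is a good `g` with `cc ψ g = 0` for all `ψ ∈ T` and `¬ InM M (cc θ g)` (`InM.or`). For
`T = IrrOn H` we get `g = 0` by EXP, a contradiction. Uses: BRH, CCI, CVF, EXP. -/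
def LIF_stmt : Prop :=
  ∀ (p : ℕ) (M : Ideal (integralClosure ℤ ℂ)), Setup p M → ∀ (G : Type) [Group G] [Finite G]
    (H : Subgroup G), ∀ y ∈ H, PEl p y → ∀ θ ∈ IrrOn (Cz H y), ∃ ψ ∈ IrrOn H, ∀ z : G → ℂ,
    CF H z → (∀ x, IntAt M (z x)) → InM M (cc θ z - cc ψ z)

open Classical in
/-- `Blk M χ H` is a union of blocks. Proof: `omega ψ g = cc ψ z` for the indicator function `z` of
`conjugatesOf g ∩ H`, if `ψ` vanishes outside `H`. -/
def BCL_stmt : Prop :=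
  ∀ (G : Type) [Group G] [Finite G] (M : Ideal (integralClosure ℤ ℂ)) (χ : G → ℂ)
    (H : Subgroup G), BC M H (Blk M χ H)

/-- An element with central characters in the maximal ideal and `z³ ≡ z` is `≡ 0`. Proof: call `u`
null if `CF L u` and all values are `InM`. By induction over finite subsets `T` of `IrrOn L` the product
of all `z - cc θ z • dl`, `θ ∈ T`, differs from the `|T|`-th power of `z` by a null function. For
`T = IrrOn L` the product is `0` (EXP, CCI). So some power `z^n` is null. Also `z^(2k+1) - z` is null for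
all `k`. Take `2k + 1 ≥ n`. Uses: CVF, CCI, EXP, B2 of DI. -/
def NIL_stmt : Prop :=
  ∀ (p : ℕ) (M : Ideal (integralClosure ℤ ℂ)), Setup p M → ∀ (G : Type) [Group G] [Finite G]
    (L : Subgroup G) (z : G → ℂ), CF L z → (∀ x, IntAt M (z x)) →
    (∀ θ ∈ IrrOn L, InM M (cc θ z)) → (∀ x, InM M (cv (cv z z) z x - z x)) → ∀ x, InM M (z x)

/-- The block idempotents of `H` and of `C_H(y)`. Proof: let `L = Cz H y`, `e = eS H (Blk M χ H)`,
`f = eS L (Blk M χ L)`, `e' = rs y e`, all with values `IntAt` (EIN, BCL). On `L` `e' = e`. By BRH and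
`cv e e = e` the function `cv e' e' - e'` has values `InM`, and `cv f f = f`, `cv e' f = cv f e'` (CVF). So
`z = e' - f` satisfies `cv (cv z z) z - z` has values `InM` (expand). For `θ ∈ IrrOn L` take `ψ` from LIF.
Then `omega θ g - omega ψ g` is `InM` for all `g` (indicator function of `conjugatesOf g ∩ H`) and
integral (OI of DC), so `Induces M θ χ ↔ Induces M ψ χ`; and `cc θ e' = cc θ e` is congruent to
`cc ψ e`. So by IDM `cc θ z` is `InM`. Use NIL. Uses: EIN, BCL, BRH, LIF, IDM, NIL, CVF, CCI, OI. -/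
def EQL_stmt : Prop :=
  ∀ (p : ℕ) (M : Ideal (integralClosure ℤ ℂ)), Setup p M → ∀ (G : Type) [Group G] [Finite G]
    (H : Subgroup G), ∀ y ∈ H, PEl p y → ∀ χ : G → ℂ, ∀ x ∈ Cz H y,
    InM M (eS H (Blk M χ H) x - eS (Cz H y) (Blk M χ (Cz H y)) x)

/-- KEY for group algebras. Proof: let `a = y v`, `b = y' v'`, `Z = H`, `ε z w = u (z⁻¹ w)`,
`π z = a⁻¹ z b`, `n₀ = orderOf v * orderOf v'`. Idempotent: `cv u u = u`; `π`-invariant:
`(π z)⁻¹ (π w) = b⁻¹ z⁻¹ w b`. `π ^ (p^n n₀) = 1` if `y ^ p^n = y' ^ p^n = 1`. If `π^n₀ z = z` then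
`y^n₀ z = z y'^n₀`, and as `n₀` is prime to `p`, `y z = z y'`. Uses: KEY. -/
def KYG_stmt : Prop :=
  ∀ (p : ℕ) (M : Ideal (integralClosure ℤ ℂ)), Setup p M → ∀ (G : Type) [Group G] [Finite G]
    (H : Subgroup G) (u : G → ℂ), (∀ x, x ∉ H → u x = 0) → (∀ x, IntAt M (u x)) → cv u u = u →
    ∀ y ∈ H, ∀ v ∈ H, ∀ y' ∈ H, ∀ v' ∈ H, PEl p y → PEl p y' → PReg p v → PReg p v' →
    Commute y v → Commute y' v' → (∀ x, u ((y' * v') * x * (y' * v')⁻¹) = u x) →
    (∀ z ∈ H, ∀ w ∈ H, z⁻¹ * y * z = y' → w⁻¹ * y * w = y' → InM M (u (z⁻¹ * w))) →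
    ∀ r : ℕ, Small p M r (∑ᶠ z ∈ (H : Set G), u (z⁻¹ * (y * v)⁻¹ * z * (y' * v')))

/-- Block orthogonality. Proof: KYG for `u = eS H S` (IDM, EIN); the last condition is empty. The sum is
`Sf S (y v) (y' v')` by IDM; it is integral (SFC), so `0` by ZER. Uses: KYG, IDM, EIN, SFC, ZER. -/
def BR0_stmt : Prop :=
  ∀ (p : ℕ) (M : Ideal (integralClosure ℤ ℂ)), Setup p M → ∀ (G : Type) [Group G] [Finite G]
    (H : Subgroup G) (S : Set (G → ℂ)), BC M H S → ∀ y ∈ H, ∀ v ∈ H, ∀ y' ∈ H, ∀ v' ∈ H,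
    PEl p y → PEl p y' → PReg p v → PReg p v' → Commute y v → Commute y' v' →
    (∀ h ∈ H, h⁻¹ * y * h ≠ y') → Sf S (y * v) (y' * v') = 0

/-- The trace formula for the idempotent of `C_H(y)`. Proof: let `L = Cz H y`, `f = eS L T`,
`a = y v`, `b = y v'`. Averaging over `L`: `|L| ∑_{z ∈ H} f(z⁻¹a⁻¹zb) = ∑_{z ∈ H} F z` with
`F z = ∑_{l ∈ L} f(l⁻¹ (z⁻¹ a z)⁻¹ l b)`. If `z⁻¹ a z ∉ L` then `F z = 0`. If `z⁻¹ a z ∈ L` then `F z` is
`Sf T (z⁻¹ a z) b` (IDM), where `z⁻¹ a z = (z⁻¹ y z) (z⁻¹ v z)`, both factors are powers of it, so in `L`. By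
BR0 it is `0` unless `z⁻¹ y z` is conjugate to `y` in `L`, hence equal to `y`, hence `z ∈ L`; and for
`z ∈ L` it is `Sf T a b` (SFC). Uses: IDM, BR0, SFC. -/
def FCO_stmt : Prop :=
  ∀ (p : ℕ) (M : Ideal (integralClosure ℤ ℂ)), Setup p M → ∀ (G : Type) [Group G] [Finite G]
    (H : Subgroup G), ∀ y ∈ H, PEl p y → ∀ T : Set (G → ℂ), BC M (Cz H y) T →
    ∀ v ∈ Cz H y, ∀ v' ∈ Cz H y, PReg p v → PReg p v' →
    ∑ᶠ z ∈ (H : Set G), eS (Cz H y) T (z⁻¹ * (y * v)⁻¹ * z * (y * v')) = Sf T (y * v) (y * v')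

/-- THE SECOND MAIN THEOREM for `Blk`. Proof: let `L = Cz H y`, `e = eS H (Blk M χ H)`,
`f = eS L (Blk M χ L)`, `g = cv e f = cv f e` (CVF), `a = y v`, `b = y v'`. The functions `e - g` and `f - g`
are idempotents supported on `H`, with values `IntAt`, invariant under `L`. For `l ∈ L`:
`g l = ∑_{x ∈ L} e x * f (x⁻¹ l)`, which is congruent to `cv f f l = f l` by EQL; so
`(e - g) l`, `(f - g) l` are `InM`. KYG with `y' = y` for both (if `z⁻¹yz = y = w⁻¹yw` then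
`z⁻¹ w ∈ L`), subtract: `∑_{z ∈ H} (e - f)(z⁻¹a⁻¹zb)` is `Small r` for all `r`. By IDM and FCO it is
`Sf (Blk M χ H) a b - Sf (Blk M χ L) a b`, so this is `0` (ZER, SFC). Finally
`Sf (Blk M χ L) a b = Sf (Blk M χ L) v v'` by SFC. Uses: KYG, IDM, EIN, BCL, EQL, FCO, CVF, SFC, ZER. -/
def BR2_stmt : Prop :=
  ∀ (p : ℕ) (M : Ideal (integralClosure ℤ ℂ)), Setup p M → ∀ (G : Type) [Group G] [Finite G]
    (H : Subgroup G), ∀ y ∈ H, PEl p y → ∀ χ : G → ℂ, ∀ v ∈ Cz H y, ∀ v' ∈ Cz H y,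
    PReg p v → PReg p v' →
    Sf (Blk M χ H) (y * v) (y * v') = Sf (Blk M χ (Cz H y)) v v'

/-! ## D. Counting fixed characters -/

/-- Decomposition `g = y v`, `y` a `p`-element, `v` `p`-regular, `y v = v y` (both powers of `g`,
unique). -/
def PPT_stmt : Prop :=
  ∀ (p : ℕ), p.Prime → ∀ (G : Type) [Group G] [Finite G] (H : Subgroup G) (F : G → ℂ),
    ∑ᶠ g ∈ (H : Set G), F g =
      ∑ᶠ y ∈ {y : G | y ∈ H ∧ PEl p y}, ∑ᶠ v ∈ {v : G | v ∈ Cz H y ∧ PReg p v}, F (y * v)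

/-- Counting fixed characters. Proof: for `ψ ∈ Blk M χ H` the function `φ = funMap α (galMap σ ψ)` is in
`IrrOn H` (GLI, IF of DC) and `φ g = ψ ((α⁻¹ g)^s)` (GLP), `∑_g φ g * ψ g⁻¹ = |H| [φ = ψ]` (B2 of DI).
Sum over `ψ`. Uses: GLI, GLP, IF of DC, B2 of DI. -/
def CNT_stmt : Prop :=
  ∀ (p : ℕ) (M : Ideal (integralClosure ℤ ℂ)) (G : Type) [Group G] [Finite G] (H : Subgroup G)
    (χ : G → ℂ) (α : MulAut G) (σ : ℂ ≃+* ℂ) (s : ℕ), H.map α.toMonoidHom = H →
    Ex p (Nat.card G) σ s →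
    (Nat.card H : ℂ) * cnt M χ H α σ =
      ∑ᶠ g ∈ (H : Set G), Sf (Blk M χ H) ((α⁻¹ g) ^ s) g

/-- Sum over a coset. Proof: let `H = N.comap X.inc`, `B = Blk M χ H`. If no `e ∈ N` lies over `a` both
sides are `0`. Fix one, `e₀`, `α = X.act e₀`. The others are the `e₀ * X.inc h`, `h ∈ H` (each once), and
`X.act (X.inc h) = MulAut.conj h`, so `(X.act e)⁻¹ x = h⁻¹ * (α⁻¹ x) * h`; `Sf B` is invariant under
conjugation by `H` in each argument (SFC). So by CNT the left side is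
`Λ = ∑_{g ∈ H} Sf B ((α⁻¹ g)^s) g`, and by PPT `Λ = ∑_y ∑_v Sf B ((α⁻¹(y v))^s) (y v)`, over the
`p`-elements `y ∈ H` and the `p`-regular `v ∈ Cz H y`. Here
`(α⁻¹(y v))^s = (α⁻¹ y)^s * α⁻¹ v`, as `s ≡ 1` modulo the order of `v` (`Ex.reg`). By BR0 the
summand is `0` unless `(α⁻¹ y)^s` is conjugate to `y` in `H`. On the right side exchange the sums over
`e` and `y`. For `e` with `((X.act e)⁻¹ y)^s = y` and `v ∈ Cz H y` also `(X.act e)⁻¹ v ∈ Cz H y`
(it commutes with `(X.act e)⁻¹ y`, hence with `y`), and by BR2 the summand of `tau` is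
`Sf B (y * (X.act e)⁻¹ v) (y v) = Sf B (((X.act e)⁻¹ (y v))^s) (y v) = Sf B ((α⁻¹(y v))^s) (y v)`,
independent of `e`. The number of `h ∈ H` with `h⁻¹ (α⁻¹ y)^s h = y` is `|Cz H y|` if `(α⁻¹ y)^s` is
conjugate to `y` in `H` and `0` otherwise. So the right side is `Λ`.
Uses: CNT, PPT, BR0, BR2, BCL, SFC. -/
def SEC_stmt : Prop :=
  ∀ (p : ℕ) (M : Ideal (integralClosure ℤ ℂ)), Setup p M → ∀ (G E A : Type) [Group G] [Group E]
    [Group A] [Finite G] [Finite E] (X : Extension G E A) (χ : G → ℂ) (a : A) (σ : ℂ ≃+* ℂ)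
    (s : ℕ), Ex p (Nat.card G) σ s → ∀ N : Subgroup E,
    ∑ᶠ e ∈ {e : E | e ∈ N ∧ X.proj e = a}, (cnt M χ (N.comap X.inc) (X.act e) σ : ℂ) =
    ∑ᶠ e ∈ {e : E | e ∈ N ∧ X.proj e = a},
      ∑ᶠ y ∈ {y : G | y ∈ N.comap X.inc ∧ PEl p y ∧ ((X.act e)⁻¹ y) ^ s = y},
        tau p M χ (Cz (N.comap X.inc) y) (X.act e)

/-! ## E. Chains -/

/-- Cancellation for a `p`-subgroup. Proof: on the finite set of the chains `C` on the left toggle
`R ⊔ Y`, where `R` is the largest term of `C` which does not contain `Y` (`⊥` is such a term)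
(`Finset.sum_involution`, compare A1, A4 of DI). `Y ≤ nrm C ≤ nz R`, so `R ⊔ Y` is a `p`-group in `L`;
the terms which contain `Y` are `≥ R`, hence `≥ R ⊔ Y`; `x` and `Y` and every element of `D ⊓ nz R`
normalise `R ⊔ Y` (they normalise `R` and `Y`), so membership, and `D ⊓ nrm C`, do not change. -/
def QPR_stmt : Prop :=
  ∀ (Γ : Type) [Group Γ] [Finite Γ] (p : ℕ) [Fact p.Prime] (L Y D : Subgroup Γ) (x : Γ)
    (F : Subgroup Γ → ℂ), IsPGroup p Y → Y ≤ L → Y ≠ ⊥ → Y ≤ D → x ∈ nz Y → D ≤ nz Y →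
    ∑ᶠ C ∈ {C : Finset (Subgroup Γ) | PCh p L ⊥ C ∧ x ∈ nrm C ∧ Y ≤ nrm C},
      (-1) ^ (C.card + 1) * F (D ⊓ nrm C) = 0

/-- Sums over classes of radical chains. Proof: the class of `C` has `|G| / |nrm C|` members (orbit and
stabiliser, SN of DC), `card` and `|nrm C|` are constant on classes (NM of DC), `C.card ≥ 1`; compare D1 of
`helper81/DI/SpecD`. Uses: SN, NM of DC. -/
def CLA_stmt : Prop :=
  ∀ (G : Type) [Group G] [Finite G] (p : ℕ) (F : Finset (Subgroup G) → ℤ),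
    (∀ (g : G) (C : Finset (Subgroup G)), IsRadical p C →
      F (chainMap (MulAut.conj g) C) = F C) →
    (Nat.card G : ℤ) * ∑ᶠ c : Quot (chainRel (G := G) p), (-1) ^ (c.out.1.card - 1) * F c.out.1 =
      ∑ᶠ C ∈ {C : Finset (Subgroup G) | IsRadical p C},
        (-1) ^ (C.card + 1) * ((Nat.card (nrm C) : ℤ) * F C)

/-- `galCount` is constant on classes. Proof: `ψ ↦ funMap (conj g) ψ` is a bijection of the sets counted
for `C` and for `chainMap (conj g) C` (NM, IF, IM of DC; `funMap (conj g) χ = χ`); in `FixedBy` replace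
`e` by `X.inc g * e * (X.inc g)⁻¹`. Uses: NM, IF, IM of DC. -/
def GCJ_stmt : Prop :=
  ∀ (G E A : Type) [Group G] [Group E] [Group A] [Finite G] (X : Extension G E A)
    (M : Ideal (integralClosure ℤ ℂ)), ∀ χ ∈ Irr G, ∀ (a : A) (σ : ℂ ≃+* ℂ) (g : G)
    (C : Finset (Subgroup G)),
    galCount X M χ a σ (chainMap (MulAut.conj g) C) = galCount X M χ a σ C

/-- `galCount` and `gE`. Proof: let `H = nrm C`, `N = nrm (cmap X.inc C)`. By B14 of DI
`N.comap X.inc = H` and `e ∈ N ↔ chainMap (X.act e) C = C`. If no `e ∈ N` lies over `a` both sides are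
`0`. Otherwise there are `|H|` such `e`, of the form `e₀ * X.inc h`, `h ∈ H`, and as `conj h` fixes the
`H`-class function `galMap σ ψ`, the condition `funMap (X.act e) (galMap σ ψ) = ψ` does not depend on
`e`. Uses: B14, B2 of DI. -/
def GCN_stmt : Prop :=
  ∀ (G E A : Type) [Group G] [Group E] [Group A] [Finite G] [Finite E] (X : Extension G E A)
    (M : Ideal (integralClosure ℤ ℂ)) (χ : G → ℂ) (a : A) (σ : ℂ ≃+* ℂ)
    (C : Finset (Subgroup G)), IsChain (· ≤ ·) (C : Set (Subgroup G)) → C.Nonempty →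
    (Nat.card (nrm C) : ℤ) * galCount X M χ a σ C = gE X M χ a σ (nrm (cmap X.inc C))

/-- First theorem: the right side does not depend on `σ`. Proof: by CLA (with GCJ) and GCN the left side
is `∑ (-1)^(|C|+1) gE(nrm (cmap X.inc C))` over the radical chains `C` of `G`, which is
`rSum p X.inc.range ⊤ gE` (A8 of DI), and `cSum p X.inc.range ⊥ ⊤ gE` by A7 (A14: `IsOp p X.inc.range ⊥`).
By SEC (`s` from GLS) every term `gE (nrm C)` is a double sum over `e` and `y`. Exchange the sums: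
for fixed `e` over `a` and a `p`-element `y` with `((X.act e)⁻¹ y)^s = y` we have the sum over
the chains `C` with `e ∈ nrm C`, `X.inc y ∈ nrm C` of
`(-1)^(|C|+1) tau (Cz ((nrm C).comap X.inc) y)`. For `y ≠ 1` it is `0` by QPR with `Y = zpowers (X.inc y)`,
`D = centralizer {X.inc y}`, `F K = tau p M χ (K.comap X.inc) (X.act e)` (`e` normalises `Y` because
`X.act e y = y^s`). The terms with `y = 1` remain.
Uses: CLA, GCJ, GCN, SEC, GLS, QPR, A7, A8, A14 of DI. -/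
def MA1_stmt : Prop :=
  ∀ (p : ℕ) (M : Ideal (integralClosure ℤ ℂ)), Setup p M → ∀ (G E A : Type) [Group G] [Group E]
    [Group A] [Finite G] [Finite E] (X : Extension G E A), IsOp p (⊤ : Subgroup G) ⊥ →
    ∀ χ ∈ Irr G, ∀ (a : A) (σ : ℂ ≃+* ℂ), PFix p 0 (Nat.card G) σ →
    (Nat.card G : ℂ) * galSum X p M χ a σ = ∑ᶠ e ∈ {e : E | X.proj e = a},
      ∑ᶠ C ∈ {C : Finset (Subgroup E) | PCh p X.inc.range ⊥ C ∧ e ∈ nrm C},
        (-1) ^ (C.card + 1) * tau p M χ ((nrm C).comap X.inc) (X.act e)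

/-! ## F. Orbits -/

/-- A generator. Proof: for `σ` let `s(σ)` be the unit of `ZMod n` with `σ ζ = ζ^s` (GLS). The image `I`
of the group of all `σ` with `PFix p j n σ` in the units is contained in the group `K` of all units
`s ≡ 1` modulo `n'`, where `n = p^b m`, `p ∤ m`, `n' = p^(min b j) m` (a primitive `n'`-th root of unity
is fixed). `K` maps injectively to the units of `ZMod (p^b)` (Chinese remainder theorem). For `p ≠ 2`
these are cyclic (`ZMod.isCyclic_units_iff`); for `p = 2`, `j ≥ 2`: if `b ≤ j` then `K` is trivial,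
otherwise `b ≥ 3` and the units `≡ 1` modulo `4` of `ZMod (2^b)` are cyclic, generated by `5`. So `I` is
cyclic. Last item: if `s ≡ 1` modulo `p^i m`, `i ≥ 1`, then `s^p ≡ 1` modulo `p^(i+1) m`; so `K` has
`p`-power exponent if `j ≥ 1`. Uses: GLS. -/
def CYC_stmt : Prop :=
  ∀ (p j n : ℕ), p.Prime → 0 < n → (p ≠ 2 ∨ 2 ≤ j) → ∃ γ : ℂ ≃+* ℂ, PFix p j n γ ∧
    (∀ σ : ℂ ≃+* ℂ, PFix p j n σ → ∃ k : ℕ, ∀ ζ : ℂ, ζ ^ n = 1 → σ ζ = (γ ^ k) ζ) ∧
    (1 ≤ j → ∃ t : ℕ, ∀ ζ : ℂ, ζ ^ n = 1 → (γ ^ (p ^ t)) ζ = ζ)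

/-- Fixed characters and orbit lengths for one chain. Proof: let `n = |G|`, `H = nrm C`. By GLS and GLP:
if `σ`, `τ` agree on the `n`-th roots of unity then `galMap σ ψ = galMap τ ψ` for `ψ ∈ IrrOn H`. So
`galOrbit p j ψ` is the set of all `galMap (γ^i) ψ`, `i ∈ ℕ`, a subset of the finite set `IrrOn H` (GLI),
the orbit of `ψ` under the permutation `galMap γ` of `IrrOn H`; if it has `m` elements then `m ≥ 1` and
`galMap (γ^i) ψ = ψ ↔ m ∣ i`. CLAIM: `FixedBy X a (γ^k) C ψ` iff `FixedBy X a refl C ψ` and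
`galMap (γ^k) ψ = ψ`. `←` is clear. `→`: if `a = 1` then `e = X.inc h` with `h ∈ H` (SN of DC), `conj h`
fixes the `H`-class function `galMap (γ^k) ψ`, and `e = 1` shows `FixedBy X 1 refl C ψ`. In the second
case let `o = orderOf a`, `T φ = funMap (X.act e) φ`; `T` commutes with `galMap`, and `T^o φ = φ` for
`φ ∈ IrrOn H` (`e^o = X.inc h`, `h ∈ H` by SN). `T (galMap (γ^k) ψ) = ψ` gives
`galMap (γ^(k o)) ψ = ψ`; also `galMap (γ^(k p^t)) ψ = ψ`, and `o`, `p^t` are coprime, so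
`galMap (γ^k) ψ = ψ` and `T ψ = ψ`. Uses: GLS, GLP, GLI, SN of DC, B2 of DI. -/
def OCT_stmt : Prop :=
  ∀ (p j : ℕ), p.Prime → ∀ (M : Ideal (integralClosure ℤ ℂ)) (G E A : Type) [Group G] [Group E]
    [Group A] [Finite G] [Finite E] (X : Extension G E A) (χ : G → ℂ) (a : A)
    (C : Finset (Subgroup G)) (γ : ℂ ≃+* ℂ), IsChain (· ≤ ·) (C : Set (Subgroup G)) →
    PFix p j (Nat.card G) γ →
    (∀ σ : ℂ ≃+* ℂ, PFix p j (Nat.card G) σ →
      ∃ k : ℕ, ∀ ζ : ℂ, ζ ^ Nat.card G = 1 → σ ζ = (γ ^ k) ζ) →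
    (a = 1 ∨ ((∃ t : ℕ, ∀ ζ : ℂ, ζ ^ Nat.card G = 1 → (γ ^ (p ^ t)) ζ = ζ) ∧ ¬ p ∣ orderOf a)) →
    orbCount X p j 0 M χ a C = 0 ∧ ∀ k : ℕ, 1 ≤ k →
      galCount X M χ a (γ ^ k) C = ∑ m ∈ k.divisors, orbCount X p j m M χ a C

/-- The whole Dade sum. Proof: for every `C` the characters counted by `galCount X M χ a refl C` are those
with `a ∈ (X.stab C ψ).map X.proj`; group them by `d` (every `ψ` has exactly one `d` with
`Defect p (nrm C) ψ d`) and by `U = (X.stab C ψ).map X.proj`. All sums are finite. -/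
def TOT_stmt : Prop :=
  ∀ (G E A : Type) [Group G] [Group E] [Group A] [Finite G] [Finite E] (X : Extension G E A)
    (p : ℕ) (M : Ideal (integralClosure ℤ ℂ)) (χ : G → ℂ) (a : A),
    galSum X p M χ a (RingEquiv.refl ℂ) = dadeSum X p M χ a

/-- Second theorem. Proof: `γ` from CYC for `n = |G|`. By OCT `galSum (γ^k) = ∑_{m ∣ k} orbSum m` for
`k ≥ 1` and `orbSum 0 = 0`; `PFix p j` implies `PFix p 0`, so by MA1 `galSum (γ^k) = galSum refl` for all
`k`. For `k = 1`: `orbSum 1 = galSum refl`; for `k ≥ 2` by strong induction `orbSum k = 0`.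
Uses: MA1, CYC, OCT. -/
def MA2_stmt : Prop :=
  ∀ (p : ℕ) (M : Ideal (integralClosure ℤ ℂ)), Setup p M → ∀ (G E A : Type) [Group G] [Group E]
    [Group A] [Finite G] [Finite E] (X : Extension G E A), IsOp p (⊤ : Subgroup G) ⊥ →
    ∀ χ ∈ Irr G, ∀ a : A,
    (∀ σ : ℂ ≃+* ℂ, PFix p 0 (Nat.card G) σ →
      galSum X p M χ a σ = galSum X p M χ a (RingEquiv.refl ℂ)) ∧
    ∀ j m : ℕ, (p ≠ 2 ∨ 2 ≤ j) → (a = 1 ∨ (1 ≤ j ∧ ¬ p ∣ orderOf a)) →
      orbSum X p j m M χ a = if m = 1 then galSum X p M χ a (RingEquiv.refl ℂ) else 0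

end Pool.Agent.GR
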