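import Pool.Agent.helper83.GR.Spec

set_option autoImplicit false

namespace Pool.Agent.GR

open Pool.Agent.helper58.DC Pool.Agent.DI

theorem MA2_mono {p j n : ℕ} {σ : ℂ ≃+* ℂ} (h : PFix p j n σ) : PFix p 0 n σ := by
  intro ζ h1 h2
  refine h ζ h1 fun h3 => h2 (dvd_trans (pow_dvd_pow p (by omega)) h3)

theorem MA2_pow {p j n : ℕ} {σ : ℂ ≃+* ℂ} (h : PFix p j n σ) (k : ℕ) : PFix p j n (σ ^ k) := by
  intro ζ h1 h2
  induction k with
  | zero => rfl
  | succ k ih =>
    rw [pow_succ]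
    change (σ ^ k) (σ ζ) = ζ
    rw [h ζ h1 h2, ih]

theorem MA2_refl (p j n : ℕ) : PFix p j n (RingEquiv.refl ℂ) := fun _ _ _ => rfl

theorem MA2_eq (hMA1 : MA1_stmt) (p : ℕ) (M : Ideal (integralClosure ℤ ℂ)) (hS : Setup p M)
    (G E A : Type) [Group G] [Group E] [Group A] [Finite G] [Finite E] (X : Extension G E A)
    (hO : IsOp p (⊤ : Subgroup G) ⊥) (χ : G → ℂ) (hχ : χ ∈ Irr G) (a : A) (σ : ℂ ≃+* ℂ)
    (hσ : PFix p 0 (Nat.card G) σ) :
    galSum X p M χ a σ = galSum X p M χ a (RingEquiv.refl ℂ) := by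
  have h1 := hMA1 p M hS G E A X hO χ hχ a σ hσ
  have h2 := hMA1 p M hS G E A X hO χ hχ a (RingEquiv.refl ℂ) (MA2_refl _ _ _)
  have h3 : (Nat.card G : ℂ) ≠ 0 := by exact_mod_cast Nat.card_pos.ne'
  have h4 := mul_left_cancel₀ h3 (h1.trans h2.symm)
  exact_mod_cast h4

theorem MA2 (hMA1 : MA1_stmt) (hCYC : CYC_stmt) (hOCT : OCT_stmt) : MA2_stmt := by
  intro p M hS G E A _ _ _ _ _ X hO χ hχ a
  refine ⟨fun σ hσ => MA2_eq hMA1 p M hS G E A X hO χ hχ a σ hσ, ?_⟩
  intro j m hp ha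
  obtain ⟨γ, hγ, hgen, hpp⟩ := hCYC p j (Nat.card G) hS.pr Nat.card_pos hp
  have ha' : a = 1 ∨ ((∃ t : ℕ, ∀ ζ : ℂ, ζ ^ Nat.card G = 1 → (γ ^ (p ^ t)) ζ = ζ) ∧
      ¬ p ∣ orderOf a) := by
    rcases ha with ha | ⟨h1, h2⟩
    · exact Or.inl ha
    · exact Or.inr ⟨hpp h1, h2⟩
  haveI : Finite (Quot (chainRel (G := G) p)) := inferInstance
  haveI : Fintype (Quot (chainRel (G := G) p)) := Fintype.ofFinite _
  -- the relation for `k ≥ 1`
  have key : ∀ k : ℕ, 1 ≤ k → galSum X p M χ a (RingEquiv.refl ℂ) =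
      ∑ m ∈ k.divisors, orbSum X p j m M χ a := by
    intro k hk
    rw [← MA2_eq hMA1 p M hS G E A X hO χ hχ a (γ ^ k) (MA2_mono (MA2_pow hγ k))]
    unfold galSum orbSum
    simp only [finsum_eq_sum_of_fintype]
    rw [Finset.sum_comm]
    refine Finset.sum_congr rfl fun c _ => ?_
    rw [(hOCT p j hS.pr M G E A X χ a c.out.1 γ c.out.2.chain hγ hgen ha').2 k hk]
    push_cast
    rw [Finset.mul_sum]
  have hone : orbSum X p j 1 M χ a = galSum X p M χ a (RingEquiv.refl ℂ) := by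
    have := key 1 le_rfl
    simpa using this.symm
  have hzero : orbSum X p j 0 M χ a = 0 := by
    unfold orbSum
    rw [finsum_eq_sum_of_fintype]
    refine Finset.sum_eq_zero fun c _ => ?_
    rw [(hOCT p j hS.pr M G E A X χ a c.out.1 γ c.out.2.chain hγ hgen ha').1]
    simp
  have hrec : ∀ k : ℕ, 2 ≤ k → orbSum X p j k M χ a = 0 := by
    intro k
    induction k using Nat.strong_induction_on with
    | _ k ih =>
      intro hk
      have h1 := key k (by omega)
      have hkd : k ∈ k.divisors := Nat.mem_divisors_self k (by omega)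
      have h1d : (1 : ℕ) ∈ (k.divisors).erase k :=
        Finset.mem_erase.2 ⟨by omega, Nat.one_mem_divisors.2 (by omega)⟩
      rw [← Finset.add_sum_erase _ _ hkd, ← Finset.add_sum_erase _ _ h1d, hone] at h1
      have h2 : ∑ x ∈ ((k.divisors).erase k).erase 1, orbSum X p j x M χ a = 0 := by
        refine Finset.sum_eq_zero fun x hx => ?_
        simp only [Finset.mem_erase, Nat.mem_divisors] at hx
        obtain ⟨hx1, hxk, hxd, _⟩ := hx
        have hxpos : 0 < x := Nat.pos_of_dvd_of_pos hxd (by omega)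
        have hxle : x ≤ k := Nat.le_of_dvd (by omega) hxd
        exact ih x (by omega) (by omega)
      rw [h2] at h1
      linarith
  rcases Nat.lt_or_ge m 2 with hm | hm
  · interval_cases m
    · simpa using hzero
    · simpa using hone
  · rw [hrec m hm, if_neg (by omega)]

end Pool.Agent.GR
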