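import Pool.Agent.helper83.GR.Spec

set_option autoImplicit false

namespace Pool.Agent.GR

open Pool.Agent.helper58.DC Pool.Agent.DI

theorem OCT_iter {G : Type} (γ : ℂ ≃+* ℂ) (i : ℕ) (ψ : G → ℂ) :
    (galMap γ)^[i] ψ = galMap (γ ^ i) ψ := by
  induction i with
  | zero => rfl
  | succ i ih =>
    rw [Function.iterate_succ_apply', ih]
    funext g
    change γ ((γ ^ i) (ψ g)) = (γ ^ (i + 1)) (ψ g)
    rw [pow_succ']
    rfl

theorem OCT_inj {G : Type} (γ : ℂ ≃+* ℂ) : Function.Injective (galMap (G := G) γ) := by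
  intro ψ φ h
  funext g
  exact γ.injective (congrFun h g)

theorem OCT_agree (hGLS : GLS_stmt) (hGLP : GLP_stmt) {p : ℕ} (hp : p.Prime) {G : Type} [Group G]
    [Finite G] (H : Subgroup G) {σ τ : ℂ ≃+* ℂ}
    (h : ∀ ζ : ℂ, ζ ^ Nat.card G = 1 → σ ζ = τ ζ) {ψ : G → ℂ} (hψ : ψ ∈ IrrOn H) :
    galMap σ ψ = galMap τ ψ := by
  obtain ⟨s, hs, hs'⟩ := (hGLS p (Nat.card G) σ hp Nat.card_pos).1
  funext g
  change σ (ψ g) = τ (ψ g)
  rw [hGLP G σ s hs hs' H ψ hψ g, hGLP G τ s hs (fun ζ hζ => by rw [← h ζ hζ, hs' ζ hζ]) H ψ hψ g]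

theorem OCT_actinc {G E A : Type} [Group G] [Group E] [Group A] (X : Extension G E A) (h : G) :
    X.act (X.inc h) = MulAut.conj h := by
  ext g
  apply X.inc_injective
  rw [X.act_spec, MulAut.conj_apply]
  simp

theorem OCT_fun_mul {G : Type} [Group G] (α β : MulAut G) (ψ : G → ℂ) :
    funMap (α * β) ψ = funMap α (funMap β ψ) := by
  funext g
  simp [funMap, mul_inv_rev]

theorem OCT_comm {G : Type} [Group G] (α : MulAut G) (σ : ℂ ≃+* ℂ) (ψ : G → ℂ) :
    funMap α (galMap σ ψ) = galMap σ (funMap α ψ) := rfl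

theorem OCT_chain_mul {G : Type} [Group G] (α β : MulAut G) (C : Finset (Subgroup G)) :
    chainMap (α * β) C = chainMap α (chainMap β C) := by
  classical
  unfold chainMap
  rw [Finset.image_image]
  refine Finset.image_congr fun P _ => ?_
  simp only [Function.comp_apply, Subgroup.map_map]
  rfl

theorem OCT_chain_one {G : Type} [Group G] (C : Finset (Subgroup G)) :
    chainMap (1 : MulAut G) C = C := by
  classical
  unfold chainMap
  conv_rhs => rw [← Finset.image_id (s := C)]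
  refine Finset.image_congr fun P _ => ?_
  exact Subgroup.map_id P

theorem OCT_conj (hB2 : B2_stmt) {G : Type} [Group G] [Finite G] (H : Subgroup G) {ψ : G → ℂ}
    (hψ : ψ ∈ IrrOn H) {h : G} (hh : h ∈ H) : funMap (MulAut.conj h) ψ = ψ := by
  funext g
  have h1 := ((hB2 G H).2 ψ hψ).2.1 g h⁻¹ (H.inv_mem hh)
  simp only [inv_inv] at h1
  change ψ ((MulAut.conj h)⁻¹ g) = ψ g
  rw [← map_inv, MulAut.conj_apply, inv_inv, h1]

/-- The main claim. -/
theorem OCT_claim (hGLS : GLS_stmt) (hGLP : GLP_stmt) (hGLI : GLI_stmt) (hSN : SN_stmt)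
    (hB2 : B2_stmt) (p : ℕ) (hp : p.Prime) (G E A : Type) [Group G] [Group E]
    [Group A] [Finite G] [Finite E] (X : Extension G E A) (a : A)
    (C : Finset (Subgroup G)) (γ : ℂ ≃+* ℂ) (hC : IsChain (· ≤ ·) (C : Set (Subgroup G)))
    (ha : a = 1 ∨ ((∃ t : ℕ, ∀ ζ : ℂ, ζ ^ Nat.card G = 1 → (γ ^ (p ^ t)) ζ = ζ) ∧
      ¬ p ∣ orderOf a)) (k : ℕ) (ψ : G → ℂ) (hψ : ψ ∈ IrrOn (nrm C)) :
    FixedBy X a (γ ^ k) C ψ ↔
      (FixedBy X a (RingEquiv.refl ℂ) C ψ ∧ (galMap γ)^[k] ψ = ψ) := by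
  have hgal : ∀ i, galMap (γ ^ i) ψ ∈ IrrOn (nrm C) := fun i => hGLI G (nrm C) (γ ^ i) ψ hψ
  constructor
  · rintro ⟨e, he, hec, hf⟩
    rcases ha with rfl | ⟨⟨t, ht⟩, hpa⟩
    · obtain ⟨h, rfl⟩ := (X.exact e).1 he
      rw [OCT_actinc] at hec hf
      have hh : h ∈ nrm C := (hSN G C hC h).1 hec
      rw [OCT_conj hB2 (nrm C) (hgal k) hh] at hf
      refine ⟨⟨1, map_one _, ?_, ?_⟩, by rw [OCT_iter]; exact hf⟩
      · rw [map_one]
        exact OCT_chain_one C
      · rw [map_one]
        rfl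
    · set o := orderOf a with ho
      set T : (G → ℂ) → (G → ℂ) := funMap (X.act e) with hT
      -- iterates of `T`
      have hTi : ∀ i : ℕ, ∀ φ : G → ℂ, T^[i] φ = funMap (X.act (e ^ i)) φ := by
        intro i
        induction i with
        | zero =>
          intro φ
          rw [pow_zero, map_one]
          rfl
        | succ i ih =>
          intro φ
          rw [Function.iterate_succ_apply', ih, hT, ← OCT_fun_mul, ← map_mul, ← pow_succ']
      have hci : ∀ i : ℕ, chainMap (X.act (e ^ i)) C = C := by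
        intro i
        induction i with
        | zero => rw [pow_zero, map_one]; exact OCT_chain_one C
        | succ i ih => rw [pow_succ', map_mul, OCT_chain_mul, ih, hec]
      have hTo : ∀ φ ∈ IrrOn (nrm C), T^[o] φ = φ := by
        intro φ hφ
        rw [hTi]
        have h1 : X.proj (e ^ o) = 1 := by rw [map_pow, he, ho, pow_orderOf_eq_one]
        obtain ⟨h, hh⟩ := (X.exact _).1 h1
        have h2 := hci o
        rw [← hh, OCT_actinc] at h2 ⊢
        exact OCT_conj hB2 (nrm C) hφ ((hSN G C hC h).1 h2)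
      -- `T` commutes with `galMap`
      have hcomm : ∀ i j : ℕ, T^[i] (galMap (γ ^ j) ψ) = galMap (γ ^ j) (T^[i] ψ) := by
        intro i j
        rw [hTi, hTi]
        rfl
      have hTψ : T (galMap (γ ^ k) ψ) = ψ := hf
      -- iterates
      have hit : ∀ i : ℕ, T^[i] (galMap (γ ^ (k * i)) ψ) = ψ := by
        intro i
        induction i with
        | zero => rfl
        | succ i ih =>
          have h3 : galMap (γ ^ (k * (i + 1))) ψ = galMap (γ ^ (k * i)) (galMap (γ ^ k) ψ) := by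
            rw [← OCT_iter, ← OCT_iter, ← OCT_iter, ← Function.iterate_add_apply]
            congr 2
          rw [h3, Function.iterate_succ_apply]
          have h4 : T (galMap (γ ^ (k * i)) (galMap (γ ^ k) ψ)) =
              galMap (γ ^ (k * i)) (T (galMap (γ ^ k) ψ)) := rfl
          rw [h4, hTψ, ih]
      have h5 : galMap (γ ^ (k * o)) ψ = ψ := by
        have := hit o
        rwa [hTo _ (hgal _)] at this
      have h6 : galMap (γ ^ (k * p ^ t)) ψ = ψ := by
        have h7 : galMap (γ ^ (k * p ^ t)) ψ = galMap (RingEquiv.refl ℂ) ψ := by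
          refine OCT_agree hGLS hGLP hp (nrm C) (fun ζ hζ => ?_) hψ
          change (γ ^ (k * p ^ t)) ζ = ζ
          rw [mul_comm, pow_mul]
          have h8 : ∀ i : ℕ, ((γ ^ (p ^ t)) ^ i) ζ = ζ := by
            intro i
            induction i with
            | zero => rfl
            | succ i ih =>
              rw [pow_succ]
              change ((γ ^ (p ^ t)) ^ i) ((γ ^ (p ^ t)) ζ) = ζ
              rw [ht ζ hζ, ih]
          exact h8 k
        rw [h7]
        rfl
      -- coprimality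
      have h9 : Function.IsPeriodicPt (galMap γ) (k * o) ψ := by
        change (galMap γ)^[k * o] ψ = ψ
        rw [OCT_iter]; exact h5
      have h10 : Function.IsPeriodicPt (galMap γ) (k * p ^ t) ψ := by
        change (galMap γ)^[k * p ^ t] ψ = ψ
        rw [OCT_iter]; exact h6
      have h11 : Nat.Coprime o (p ^ t) := by
        apply Nat.Coprime.pow_right
        exact (Nat.Coprime.symm ((Nat.Prime.coprime_iff_not_dvd hp).2 hpa))
      have h12 : Function.IsPeriodicPt (galMap γ) k ψ := by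
        have := h9.gcd h10
        rwa [Nat.gcd_mul_left, h11.gcd_eq_one, mul_one] at this
      have h13 : galMap (γ ^ k) ψ = ψ := by
        rw [← OCT_iter]
        exact h12
      refine ⟨⟨e, he, hec, ?_⟩, h12⟩
      rw [h13] at hf
      exact hf
  · rintro ⟨⟨e, he, hec, hf⟩, hk⟩
    refine ⟨e, he, hec, ?_⟩
    rw [← OCT_iter, hk]
    exact hf

theorem OCT (hGLS : GLS_stmt) (hGLP : GLP_stmt) (hGLI : GLI_stmt) (hSN : SN_stmt)
    (hB2 : B2_stmt) : OCT_stmt := by
  classical
  intro p j hp M G E A _ _ _ _ _ X χ a C γ hC hγ hgen ha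
  -- orbits
  have hgal : ∀ ψ ∈ IrrOn (nrm C), ∀ i, (galMap γ)^[i] ψ ∈ IrrOn (nrm C) := fun ψ hψ i => by
    rw [OCT_iter]
    exact hGLI G (nrm C) (γ ^ i) ψ hψ
  have hfin : (IrrOn (nrm C)).Finite := (hB2 G (nrm C)).1
  have hper : ∀ ψ ∈ IrrOn (nrm C), 0 < Function.minimalPeriod (galMap γ) ψ := by
    intro ψ hψ
    rw [Function.minimalPeriod_pos_iff_mem_periodicPts]
    have h1 : ¬ Function.Injective (fun i : ℕ => (galMap γ)^[i] ψ) := by
      intro hinj
      have h2 : (Set.range (fun i : ℕ => (galMap γ)^[i] ψ)).Finite :=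
        hfin.subset (by rintro _ ⟨i, rfl⟩; exact hgal ψ hψ i)
      exact Set.infinite_range_of_injective hinj h2
    simp only [Function.Injective, not_forall] at h1
    obtain ⟨x, y, hxy, hne⟩ := h1
    wlog hlt : x < y generalizing x y
    · exact this y x hxy.symm (Ne.symm hne) (by omega)
    refine ⟨y - x, by omega, ?_⟩
    change (galMap γ)^[y - x] ψ = ψ
    apply (OCT_inj γ).iterate x
    rw [← Function.iterate_add_apply]
    rw [show x + (y - x) = y by omega]
    exact hxy.symm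
  have horb : ∀ ψ ∈ IrrOn (nrm C), galOrbit p j ψ =
      (fun i : ℕ => (galMap γ)^[i] ψ) '' (Set.Iio (Function.minimalPeriod (galMap γ) ψ)) := by
    intro ψ hψ
    ext φ
    constructor
    · rintro ⟨σ, hσ, rfl⟩
      obtain ⟨k, hk⟩ := hgen σ hσ
      refine ⟨k % Function.minimalPeriod (galMap γ) ψ, Nat.mod_lt _ (hper ψ hψ), ?_⟩
      change (galMap γ)^[k % Function.minimalPeriod (galMap γ) ψ] ψ = galMap σ ψ
      rw [Function.iterate_mod_minimalPeriod_eq, OCT_iter]
      exact (OCT_agree hGLS hGLP hp (nrm C) hk hψ).symm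
    · rintro ⟨i, _, rfl⟩
      refine ⟨γ ^ i, ?_, ?_⟩
      · intro ζ h1 h2
        have h3 : ∀ i : ℕ, (γ ^ i) ζ = ζ := by
          intro i
          induction i with
          | zero => rfl
          | succ i ih =>
            rw [pow_succ]
            change (γ ^ i) (γ ζ) = ζ
            rw [hγ ζ h1 h2, ih]
        exact h3 i
      · exact OCT_iter γ i ψ
  have hcard : ∀ ψ ∈ IrrOn (nrm C),
      (galOrbit p j ψ).ncard = Function.minimalPeriod (galMap γ) ψ := by
    intro ψ hψ
    rw [horb ψ hψ, Set.InjOn.ncard_image]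
    · rw [← Nat.card_coe_set_eq]
      simp
    · exact Function.iterate_injOn_Iio_minimalPeriod
  constructor
  · unfold orbCount
    rw [Nat.card_eq_zero]
    left
    refine ⟨fun ψ => ?_⟩
    have h1 := ψ.2.2.2.2
    rw [hcard ψ.1 ψ.2.1] at h1
    exact (hper ψ.1 ψ.2.1).ne' h1
  · intro k hk
    set S : Set (G → ℂ) := {ψ | ψ ∈ IrrOn (nrm C) ∧ Induces M ψ χ ∧
      FixedBy X a (RingEquiv.refl ℂ) C ψ} with hSdef
    have hSfin : S.Finite := hfin.subset fun ψ h => h.1
    have hmem : ∀ ψ, ψ ∈ hSfin.toFinset ↔ (ψ ∈ IrrOn (nrm C) ∧ Induces M ψ χ ∧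
        FixedBy X a (RingEquiv.refl ℂ) C ψ) := fun ψ => by
      rw [Set.Finite.mem_toFinset]
      rfl
    have hl : galCount X M χ a (γ ^ k) C =
        (hSfin.toFinset.filter (fun ψ => (galOrbit p j ψ).ncard ∣ k)).card := by
      unfold galCount
      rw [← Set.ncard_coe_finset, ← Nat.card_coe_set_eq]
      refine Nat.card_congr (Equiv.subtypeEquivRight fun ψ => ?_)
      rw [Finset.mem_coe, Finset.mem_filter, hmem]
      constructor
      · rintro ⟨h1, h2, h3⟩
        obtain ⟨h4, h5⟩ := (OCT_claim hGLS hGLP hGLI hSN hB2 p hp G E A X a C γ hC ha k ψ h1).1 h3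
        exact ⟨⟨h1, h2, h4⟩, by rw [hcard ψ h1]; exact Function.IsPeriodicPt.minimalPeriod_dvd h5⟩
      · rintro ⟨⟨h1, h2, h4⟩, h5⟩
        refine ⟨h1, h2, (OCT_claim hGLS hGLP hGLI hSN hB2 p hp G E A X a C γ hC ha k ψ h1).2
          ⟨h4, ?_⟩⟩
        rw [hcard ψ h1] at h5
        exact (Function.isPeriodicPt_iff_minimalPeriod_dvd).2 h5
    have hr : ∀ m ∈ k.divisors, orbCount X p j m M χ a C =
        ((hSfin.toFinset.filter (fun ψ => (galOrbit p j ψ).ncard ∣ k)).filter
          (fun ψ => (galOrbit p j ψ).ncard = m)).card := by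
      intro m hm
      unfold orbCount
      rw [← Set.ncard_coe_finset, ← Nat.card_coe_set_eq]
      refine Nat.card_congr (Equiv.subtypeEquivRight fun ψ => ?_)
      rw [Finset.mem_coe, Finset.mem_filter, Finset.mem_filter, hmem]
      constructor
      · rintro ⟨h1, h2, h3, h4⟩
        exact ⟨⟨⟨h1, h2, h3⟩, by rw [h4]; exact Nat.dvd_of_mem_divisors hm⟩, h4⟩
      · rintro ⟨⟨⟨h1, h2, h3⟩, _⟩, h4⟩
        exact ⟨h1, h2, h3, h4⟩
    rw [hl, Finset.sum_congr rfl hr]
    refine Finset.card_eq_sum_card_fiberwise fun ψ hψ => ?_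
    rw [Finset.mem_coe, Finset.mem_filter] at hψ
    exact Finset.mem_coe.2 (Nat.mem_divisors.2 ⟨hψ.2, by omega⟩)

end Pool.Agent.GR
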