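import Pool.Agent.helper19.GR.VAL
import Pool.Agent.helper25.GR.ZER
import Pool.Agent.helper50.GR.PRD
import Pool.Agent.helper27.GR.ORB
import Pool.Agent.helper79.GR.KEY
import Pool.Agent.helper51.GR.CVF
import Pool.Agent.helper55.GR.EXP
import Pool.Agent.helper40.GR.SCH
import Pool.Agent.helper50.GR.CCI
import Pool.Agent.helper32.GR.GLI
import Pool.Agent.helper32.GR.GLP
import Pool.Agent.helper92.GR.GLS
import Pool.Agent.helper93.GR.IDM
import Pool.Agent.helper87.GR.SFC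
import Pool.Agent.helper16.GR.EIN
import Pool.Agent.helper67.GR.BRH
import Pool.Agent.helper57.GR.LIF
import Pool.Agent.helper21.GR.BCL
import Pool.Agent.helper55.GR.NIL
import Pool.Agent.helper70.GR.EQL
import Pool.Agent.helper28.GR.KYG
import Pool.Agent.helper16.GR.BR0
import Pool.Agent.helper61.GR.FCO
import Pool.Agent.helper92.GR.BR2
import Pool.Agent.helper9.GR.PPT
import Pool.Agent.helper92.GR.CNT
import Pool.Agent.helper11.GR.SEC
import Pool.Agent.helper87.GR.QPR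
import Pool.Agent.helper66.GR.CLA
import Pool.Agent.helper25.GR.GCJ
import Pool.Agent.helper63.GR.GCN
import Pool.Agent.helper81.GR.MA1
import Pool.Agent.helper16.GR.CYC
import Pool.Agent.helper83.GR.OCT
import Pool.Agent.helper25.GR.TOT
import Pool.Agent.helper83.GR.MA2
import Pool.Agent.helper53.DI.A1
import Pool.Agent.helper92.DI.A2
import Pool.Agent.helper34.DI.A3
import Pool.Agent.helper91.DI.A4
import Pool.Agent.helper19.DI.A5
import Pool.Agent.helper15.DI.A6
import Pool.Agent.helper16.DI.A7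
import Pool.Agent.helper34.DI.A8
import Pool.Agent.helper61.DI.A14
import Pool.Agent.helper64.DI.B1
import Pool.Agent.helper54.DI.B2
import Pool.Agent.helper6.DI.B4
import Pool.Agent.helper53.DI.B14
import Pool.Agent.helper14.DI.C3
import Pool.Agent.helper18.DI.C4
import Pool.Agent.helper98.DC.NM
import Pool.Agent.helper79.DC.SN
import Pool.Agent.helper11.DC.IRF
import Pool.Agent.helper30.DC.IRT
import Pool.Agent.helper64.DC.IF
import Pool.Agent.helper31.DC.TI
import Pool.Agent.helper93.DC.OI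
import Pool.Agent.helper55.DC.OM
import Pool.Agent.helper51.DC.IM

/-! Assembly of project gr. -/

set_option autoImplicit false

namespace Pool.Agent.GR.All

open Pool.Agent Pool.Agent.GR Pool.Agent.helper58.DC Pool.Agent.DI

theorem dNM : NM_stmt := helper98.DC.NM
theorem dSN : SN_stmt := helper79.DC.SN
theorem dIRF : IRF_stmt := helper11.DC.IRF
theorem dIRT : IRT_stmt := helper30.DC.IRT
theorem dIF : IF_stmt := helper64.DC.IF dIRF dIRT
theorem dTI : TI_stmt := helper31.DC.TI dIRT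
theorem dOI : OI_stmt := helper93.DC.OI
theorem dOM : OM_stmt := helper55.DC.OM
theorem dIM : IM_stmt := helper51.DC.IM dOM

theorem dA1 : A1_stmt := DI.A1
theorem dA2 : A2_stmt := DI.A2
theorem dA3 : A3_stmt := DI.A3 dA1
theorem dA4 : A4_stmt := DI.A4 dA1
theorem dA5 : A5_stmt := DI.A5
theorem dA6 : A6_stmt := DI.A6
theorem dA7 : A7_stmt := DI.A7 dA2 dA3 dA4 dA5 dA6
theorem dA14 : A14_stmt := DI.A14
theorem dA8 : A8_stmt := DI.A8 dA14
theorem dB1 : B1_stmt := DI.B1
theorem dB2 : B2_stmt := DI.B2 dB1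
theorem dB4 : B4_stmt := DI.B4
theorem dB14 : B14_stmt := DI.B14
theorem dC3 : C3_stmt := DI.C3
theorem dC4 : C4_stmt := DI.C4 dB1 dB4

theorem dVAL : VAL_stmt := VAL
theorem dZER : ZER_stmt := ZER
theorem dPRD : PRD_stmt := PRD dVAL
theorem dORB : ORB_stmt := ORB
theorem dKEY : KEY_stmt := KEY dORB dPRD
theorem dCVF : CVF_stmt := CVF
theorem dEXP : EXP_stmt := EXP dB2
theorem dSCH : SCH_stmt := SCH
theorem dCCI : CCI_stmt := CCI dC3 dC4 dB2
theorem dGLI : GLI_stmt := GLI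
theorem dGLP : GLP_stmt := GLP
theorem dGLS : GLS_stmt := GLS
theorem dIDM : IDM_stmt := IDM dSCH dEXP dCVF dCCI dB2
theorem dSFC : SFC_stmt := SFC dSCH dB2
theorem dEIN : EIN_stmt := EIN dCVF dCCI dEXP dIDM dB2 dC3
theorem dBRH : BRH_stmt := BRH dORB
theorem dLIF : LIF_stmt := LIF dBRH dCCI dCVF dEXP dB2
theorem dBCL : BCL_stmt := BCL
theorem dNIL : NIL_stmt := NIL dCVF dCCI dEXP dB2
theorem dEQL : EQL_stmt := EQL dEIN dBCL dBRH dLIF dIDM dNIL dCVF dCCI dOI
theorem dKYG : KYG_stmt := KYG dKEY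
theorem dBR0 : BR0_stmt := BR0 dKYG dIDM dEIN dSFC dZER
theorem dFCO : FCO_stmt := FCO dIDM dBR0 dSFC
theorem dBR2 : BR2_stmt := BR2 dKYG dIDM dEIN dBCL dEQL dFCO dCVF dSFC dZER
theorem dPPT : PPT_stmt := PPT
theorem dCNT : CNT_stmt := CNT dGLI dGLP dIF dB2
theorem dSEC : SEC_stmt := SEC dCNT dPPT dBR0 dBR2 dBCL dSFC
theorem dQPR : QPR_stmt := QPR
theorem dCLA : CLA_stmt := CLA dNM dSN
theorem dGCJ : GCJ_stmt := GCJ dNM dIF dIM dTI
theorem dGCN : GCN_stmt := GCN dB14 dB2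
theorem dMA1 : MA1_stmt := MA1 dCLA dGCJ dGCN dSEC dGLS dQPR dA7 dA8 dA14
theorem dCYC : CYC_stmt := CYC
theorem dOCT : OCT_stmt := OCT dGLS dGLP dGLI dSN dB2
theorem dTOT : TOT_stmt := TOT dB2
theorem dMA2 : MA2_stmt := MA2 dMA1 dCYC dOCT

end Pool.Agent.GR.All
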